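import Mathlib

/-!
# Blanchfield pairings of Seifert matrices and the invariant `n`
-/

set_option autoImplicit false

namespace Pool.Agent.R799

open LaurentPolynomial Matrix

/-- `Λ = ℤ[t, t⁻¹]`. -/
abbrev Lam := ℤ[T;T⁻¹]

/-- `Ω = ℚ(t)`, the field of fractions of `Λ`. -/
abbrev Om := FractionRing Lam

variable {m n : Type*}

/-- The conjugate transpose of a matrix over `Λ` (conjugation is `t ↦ t⁻¹`). -/
noncomputable def conjT (A : Matrix m n Lam) : Matrix n m Lam :=
  (A.map (LaurentPolynomial.invert (R := ℤ)))ᵀ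

/-- The integer matrix `A(1)`. -/
noncomputable def atOne (A : Matrix n n Lam) : Matrix n n ℤ :=
  A.map (eval₂ (RingHom.id ℤ) 1)

/-- The matrix over `Ω` with the same entries. -/
noncomputable def toOm (A : Matrix m n Lam) : Matrix m n Om := A.map (algebraMap Lam Om)

/-- The `Λ`-module `Λⁿ / N Λⁿ`. -/
def Coker [Fintype n] (N : Matrix n n Lam) : Type _ :=
  (n → Lam) ⧸ LinearMap.range N.mulVecLin

noncomputable instance instAddCommGroupCoker [Fintype n] (N : Matrix n n Lam) :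
    AddCommGroup (Coker N) :=
  inferInstanceAs (AddCommGroup ((n → Lam) ⧸ LinearMap.range N.mulVecLin))

noncomputable instance instModuleCoker [Fintype n] (N : Matrix n n Lam) :
    Module Lam (Coker N) :=
  inferInstanceAs (Module Lam ((n → Lam) ⧸ LinearMap.range N.mulVecLin))

/-- The class of the vector `a` in `Λⁿ / N Λⁿ`. -/
noncomputable def Coker.mk [Fintype n] (N : Matrix n n Lam) (a : n → Lam) : Coker N :=
  Submodule.Quotient.mk a

/-- The isomorphism `e` carries the class of `a` to the class of `a'`. -/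
def Carries [Fintype m] [Fintype n] {N : Matrix m m Lam} {N' : Matrix n n Lam}
    (e : Coker N ≃ₗ[Lam] Coker N') (a : m → Lam) (a' : n → Lam) : Prop :=
  e (Coker.mk N a) = Coker.mk N' a'

/-- The element `ā^t P b` of `Ω`, for `a, b ∈ Λⁿ` and a matrix `P` over `Ω`. -/
noncomputable def pairing [Fintype n] (P : Matrix n n Om) (a b : n → Lam) : Om :=
  (fun i => algebraMap Lam Om (LaurentPolynomial.invert (a i))) ⬝ᵥ
    (P *ᵥ fun i => algebraMap Lam Om (b i))

/-- The two elements of `Ω` agree modulo `Λ`. -/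
def AgreeModLam (x y : Om) : Prop := ∃ c : Lam, y - x = algebraMap Lam Om c

/-- The pairings `(a, b) ↦ ā^t P b ∈ Ω/Λ` on `Λᵐ / N Λᵐ` and `(a, b) ↦ ā^t P' b ∈ Ω/Λ` on
`Λⁿ / N' Λⁿ` are isometric: there is an isomorphism `e` of `Λ`-modules such that the values at
corresponding elements agree modulo `Λ`. -/
def IsometricPairings [Fintype m] [Fintype n] (N : Matrix m m Lam) (P : Matrix m m Om)
    (N' : Matrix n n Lam) (P' : Matrix n n Om) : Prop :=
  ∃ e : Coker N ≃ₗ[Lam] Coker N', ∀ (a b : m → Lam) (a' b' : n → Lam),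
    Carries e a a' → Carries e b b' → AgreeModLam (pairing P a b) (pairing P' a' b')

/-- The quotient module, in the standard form. -/
abbrev CokerQ [Fintype n] (N : Matrix n n Lam) : Type _ :=
  (n → Lam) ⧸ LinearMap.range N.mulVecLin

/-- `IsometricPairings` with its definition unfolded. -/
def IsoQ [Fintype m] [Fintype n] (N : Matrix m m Lam) (P : Matrix m m Om)
    (N' : Matrix n n Lam) (P' : Matrix n n Om) : Prop :=
  ∃ e : CokerQ N ≃ₗ[Lam] CokerQ N', ∀ (a b : m → Lam) (a' b' : n → Lam),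
    e (Submodule.Quotient.mk a) = Submodule.Quotient.mk a' →
    e (Submodule.Quotient.mk b) = Submodule.Quotient.mk b' →
    ∃ c : Lam, pairing P' a' b' - pairing P a b = algebraMap Lam Om c

lemma iso_iff [Fintype m] [Fintype n] (N : Matrix m m Lam) (P : Matrix m m Om)
    (N' : Matrix n n Lam) (P' : Matrix n n Om) :
    IsometricPairings N P N' P' ↔ IsoQ N P N' P' := Iff.rfl

/-- The matrix `t V - V^t`, which presents the Alexander module of a knot with Seifert matrix
`V`. -/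
noncomputable def alexanderMatrix (V : Matrix n n ℤ) : Matrix n n Lam :=
  (T 1 : Lam) • V.map (Int.castRingHom Lam) - Vᵀ.map (Int.castRingHom Lam)

/-- The matrix `(t - 1) (t V - V^t)⁻¹`, which gives the Blanchfield pairing of a knot with Seifert
matrix `V` on `Λⁿ / (t V - V^t) Λⁿ`. -/
noncomputable def blanchfieldMatrix [Fintype n] [DecidableEq n] (V : Matrix n n ℤ) :
    Matrix n n Om :=
  (algebraMap Lam Om (T 1 - 1)) • (toOm (alexanderMatrix V))⁻¹

/-- `λ(A)` is isometric to the Blanchfield pairing `λ(K)` of a knot `K` with Seifert matrix `V`,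
for a hermitian matrix `A` of size `k` over `Λ` with non-zero determinant. Here `λ(A)` is the
pairing `(a, b) ↦ ā^t A⁻¹ b` on `Λᵏ / A Λᵏ`. -/
def PresentsBlanchfield [Fintype n] [DecidableEq n] {k : ℕ} (A : Matrix (Fin k) (Fin k) Lam)
    (V : Matrix n n ℤ) : Prop :=
  conjT A = A ∧ A.det ≠ 0 ∧
    IsometricPairings A (toOm A)⁻¹ (alexanderMatrix V) (blanchfieldMatrix V)

/-- The integer matrix `B` is congruent over `ℤ` to a diagonal matrix with entries `±1`. -/
def CongruentToDiagonal {k : ℕ} (B : Matrix (Fin k) (Fin k) ℤ) : Prop :=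
  ∃ (Q : Matrix (Fin k) (Fin k) ℤ) (d : Fin k → ℤ), IsUnit Q.det ∧ (∀ i, d i = 1 ∨ d i = -1) ∧
    B = Qᵀ * Matrix.diagonal d * Q

/-- The invariant `n(K)` of a knot `K` with Seifert matrix `V`: the least size of a hermitian
matrix `A` over `Λ` with `λ(A) ≅ λ(K)` and `A(1)` congruent over `ℤ` to a diagonal matrix with
entries `±1`. -/
noncomputable def nInv [Fintype n] [DecidableEq n] (V : Matrix n n ℤ) : ℕ :=
  sInf {k | ∃ A : Matrix (Fin k) (Fin k) Lam, PresentsBlanchfield A V ∧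
    CongruentToDiagonal (atOne A)}

/-! ### A criterion for isometry -/

section Criterion

/-- a vector over `Ω` -/
noncomputable def em (a : n → Lam) : n → Om := fun i => algebraMap Lam Om (a i)

/-- the conjugate vector -/
noncomputable def cv (a : n → Lam) : n → Lam := fun i => LaurentPolynomial.invert (a i)

lemma pairing_def [Fintype n] (P : Matrix n n Om) (a b : n → Lam) :
    pairing P a b = em (cv a) ⬝ᵥ (P *ᵥ em b) := rfl

lemma em_add (a b : n → Lam) : em (a + b) = em a + em b := by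
  funext i; simp [em]

lemma cv_add (a b : n → Lam) : cv (a + b) = cv a + cv b := by
  funext i; simp [cv]

lemma em_mulVec [Fintype n] (M : Matrix m n Lam) (a : n → Lam) :
    em (M *ᵥ a) = toOm M *ᵥ em a := by
  funext i
  simp [em, toOm, Matrix.mulVec, dotProduct, map_sum, map_mul]

lemma cv_mulVec [Fintype n] (M : Matrix m n Lam) (a : n → Lam) :
    cv (M *ᵥ a) = cv a ᵥ* conjT M := by
  funext i
  simp [cv, conjT, Matrix.mulVec, Matrix.vecMul, dotProduct, map_sum, map_mul, mul_comm]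

lemma em_vecMul [Fintype m] (M : Matrix m n Lam) (a : m → Lam) :
    em (a ᵥ* M) = em a ᵥ* toOm M := by
  funext i
  simp [em, toOm, Matrix.vecMul, dotProduct, map_sum, map_mul]

lemma em_dot [Fintype n] (a b : n → Lam) : em a ⬝ᵥ em b = algebraMap Lam Om (a ⬝ᵥ b) := by
  simp [em, dotProduct, map_sum, map_mul]

lemma toOm_mul {l : Type*} [Fintype n] (A : Matrix m n Lam) (B : Matrix n l Lam) :
    toOm (A * B) = toOm A * toOm B := by
  unfold toOm; exact Matrix.map_mul

theorem isometric_of [Fintype m] [Fintype n] [DecidableEq m] [DecidableEq n]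
    (N : Matrix m m Lam) (P : Matrix m m Om) (N' : Matrix n n Lam) (P' : Matrix n n Om)
    (G : Matrix n m Lam) (X : Matrix m n Lam) (Z : Matrix n m Lam) (W : Matrix m n Lam)
    (Y1 : Matrix m m Lam) (Y2 : Matrix n n Lam)
    (hG : G * N = N' * Z) (hX : X * N' = N * W) (h1 : X * G = 1 - N * Y1)
    (h2 : G * X = 1 - N' * Y2)
    (R S : Matrix n n Lam) (hR : P' * toOm N' = toOm R) (hS : toOm (conjT N') * P' = toOm S)
    (Q : Matrix m m Lam) (hQ : toOm (conjT G) * P' * toOm G = P + toOm Q) :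
    IsometricPairings N P N' P' := by
  rw [iso_iff]
  have hGm : LinearMap.range N.mulVecLin ≤ (LinearMap.range N'.mulVecLin).comap G.mulVecLin := by
    rintro _ ⟨x, rfl⟩
    refine ⟨Z *ᵥ x, ?_⟩
    simp only [Matrix.mulVecLin_apply, Matrix.mulVec_mulVec]
    rw [hG]
  have hXm : LinearMap.range N'.mulVecLin ≤ (LinearMap.range N.mulVecLin).comap X.mulVecLin := by
    rintro _ ⟨x, rfl⟩
    refine ⟨W *ᵥ x, ?_⟩
    simp only [Matrix.mulVecLin_apply, Matrix.mulVec_mulVec]
    rw [hX]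
  let f : CokerQ N →ₗ[Lam] CokerQ N' := Submodule.mapQ _ _ G.mulVecLin hGm
  let g : CokerQ N' →ₗ[Lam] CokerQ N := Submodule.mapQ _ _ X.mulVecLin hXm
  have hfg : f.comp g = LinearMap.id := by
    apply Submodule.linearMap_qext
    apply LinearMap.ext
    intro x
    show Submodule.Quotient.mk (G *ᵥ (X *ᵥ x)) = Submodule.Quotient.mk x
    rw [Submodule.Quotient.eq]
    refine ⟨-(Y2 *ᵥ x), ?_⟩
    rw [Matrix.mulVec_mulVec, h2, Matrix.sub_mulVec, Matrix.one_mulVec, Matrix.mulVecLin_apply,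
      Matrix.mulVec_neg, Matrix.mulVec_mulVec]
    abel
  have hgf : g.comp f = LinearMap.id := by
    apply Submodule.linearMap_qext
    apply LinearMap.ext
    intro x
    show Submodule.Quotient.mk (X *ᵥ (G *ᵥ x)) = Submodule.Quotient.mk x
    rw [Submodule.Quotient.eq]
    refine ⟨-(Y1 *ᵥ x), ?_⟩
    rw [Matrix.mulVec_mulVec, h1, Matrix.sub_mulVec, Matrix.one_mulVec, Matrix.mulVecLin_apply,
      Matrix.mulVec_neg, Matrix.mulVec_mulVec]
    abel
  refine ⟨LinearEquiv.ofLinear f g hfg hgf, ?_⟩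
  intro a b a' b' ha hb
  have ha' : Submodule.Quotient.mk (G *ᵥ a) = (Submodule.Quotient.mk a' : CokerQ N') := ha
  have hb' : Submodule.Quotient.mk (G *ᵥ b) = (Submodule.Quotient.mk b' : CokerQ N') := hb
  rw [eq_comm, Submodule.Quotient.eq] at ha' hb'
  obtain ⟨x, hx⟩ := ha'
  obtain ⟨y, hy⟩ := hb'
  rw [Matrix.mulVecLin_apply] at hx hy
  have ea : a' = G *ᵥ a + N' *ᵥ x := by rw [hx]; abel
  have eb : b' = G *ᵥ b + N' *ᵥ y := by rw [hy]; abel
  refine ⟨cv a ⬝ᵥ (Q *ᵥ b) + (cv x ⬝ᵥ (S *ᵥ b')) + (cv (G *ᵥ a) ⬝ᵥ (R *ᵥ y)), ?_⟩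
  have t1 : pairing P' a' b' = em (cv (G *ᵥ a)) ⬝ᵥ (P' *ᵥ em b') +
      em (cv (N' *ᵥ x)) ⬝ᵥ (P' *ᵥ em b') := by
    rw [pairing_def]
    conv_lhs => rw [ea]
    rw [cv_add, em_add, add_dotProduct]
  have t2 : em (cv (N' *ᵥ x)) ⬝ᵥ (P' *ᵥ em b') = algebraMap Lam Om (cv x ⬝ᵥ (S *ᵥ b')) := by
    rw [cv_mulVec, em_vecMul, ← Matrix.dotProduct_mulVec, Matrix.mulVec_mulVec, hS, ← em_mulVec,
      em_dot]
  have t3 : em (cv (G *ᵥ a)) ⬝ᵥ (P' *ᵥ em b') =
      em (cv (G *ᵥ a)) ⬝ᵥ (P' *ᵥ em (G *ᵥ b)) +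
        algebraMap Lam Om (cv (G *ᵥ a) ⬝ᵥ (R *ᵥ y)) := by
    rw [eb, em_add, Matrix.mulVec_add, dotProduct_add, em_mulVec N' y, Matrix.mulVec_mulVec, hR,
      ← em_mulVec, em_dot]
  have t4 : em (cv (G *ᵥ a)) ⬝ᵥ (P' *ᵥ em (G *ᵥ b)) =
      pairing P a b + algebraMap Lam Om (cv a ⬝ᵥ (Q *ᵥ b)) := by
    rw [cv_mulVec, em_vecMul, ← Matrix.dotProduct_mulVec, em_mulVec, Matrix.mulVec_mulVec,
      Matrix.mulVec_mulVec, hQ, Matrix.add_mulVec, dotProduct_add, ← em_mulVec, em_dot,
      pairing_def]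
  rw [t1, t2, t3, t4, map_add, map_add]
  ring

end Criterion

end Pool.Agent.R799
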