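import Pool.Agent.R955.FD.Defs

/-! Piece FIN of project FD (MP_0880e2_an). -/

set_option autoImplicit false

namespace Pool.Agent.R799.FDFIN

open MeasureTheory Set Filter Topology Pool.Agent.R955.FD
open scoped ENNReal FourierTransform

universe u

theorem t_FIN (h1 : S_UPL.{u}) (h2 : S_DWN.{u}) (h3 : S_TNC.{u}) (h4 : S_LQ) (h5 : S_ENL.{u})
    (h6 : S_DEC.{u}) : S_FIN.{u} := by
  intro X _ _ _ g A L U p q J hg hp hq hU hup hJ hfin
  classical
  obtain ⟨l1, l2, l3, l4, l5⟩ := h4 q hq
  obtain ⟨c, hc0, hc⟩ := h1 X g A L p hg hp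
  set S : Finset ℕ := hfin.toFinset with hS
  -- outside of `S` the Riemann sums vanish
  have hzero : ∀ (N : ℕ) (i : ℕ), i ∉ S → nT p (TN g A N (J i)) = 0 := by
    intro N i hi
    have h0 : TN g A N (J i) = 0 := by
      funext t
      unfold TN
      simp only [Pi.zero_apply]
      refine Finset.sum_eq_zero fun n _ => ?_
      by_cases hn : (n : ℝ) / N ∈ J i
      · rw [if_pos hn]
        have hout : (n : ℝ) / N ∉ Icc (-A) A := by
          intro hin
          exact hi (hfin.mem_toFinset.2 ⟨_, hn, hin⟩)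
        have hA : A ≤ |(n : ℝ) / N| := by
          by_contra hlt
          rw [not_le, abs_lt] at hlt
          exact hout ⟨hlt.1.le, hlt.2.le⟩
        rw [hg.2.2.2.2 _ hA]
        simp
      · rw [if_neg hn]
    rw [h0]
    simp [nT]
  set M : ℝ≥0∞ := lq q (fun i => nR p (Ext g (J i))) with hM
  have key : ∀ N : ℕ, 1 ≤ N →
      ENNReal.ofReal ((N : ℝ) ^ (1 / p.toReal)) * nT p (TN g A N univ) ≤
        ENNReal.ofReal U * (ENNReal.ofReal (Real.pi / 2) *
          (M + S.card * ENNReal.ofReal (c N))) := by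
    intro N hN
    set K : ℝ≥0∞ := ENNReal.ofReal ((N : ℝ) ^ (1 / p.toReal)) with hK
    obtain ⟨t1, t2, t3⟩ := h3 X g A N hN
    have e1 := hup (fun i => pre N (J i)) (t3 J hJ) (smp g A N)
    simp only [t1, t2] at e1
    have e2 : lq q (fun i => K * nT p (TN g A N (J i))) ≤
        ENNReal.ofReal (Real.pi / 2) * (M + S.card * ENNReal.ofReal (c N)) := by
      set b : ℕ → ℝ≥0∞ := fun i => if i ∈ S then ENNReal.ofReal (c N) else 0 with hb
      calc lq q (fun i => K * nT p (TN g A N (J i)))
          ≤ lq q (fun i => ENNReal.ofReal (Real.pi / 2) * (nR p (Ext g (J i)) + b i)) := by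
            refine l1 _ _ fun i => ?_
            by_cases hi : i ∈ S
            · have := hc N hN (J i) (hJ.1 i)
              simp only [hb, if_pos hi]
              exact this
            · rw [hzero N i hi, mul_zero]
              exact bot_le
        _ = ENNReal.ofReal (Real.pi / 2) * lq q (fun i => nR p (Ext g (J i)) + b i) :=
            l3 _ _
        _ ≤ ENNReal.ofReal (Real.pi / 2) * (M + S.card * ENNReal.ofReal (c N)) := by
            gcongr
            refine (l2 _ _).trans ?_
            gcongr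
            refine l4 S b _ ?_ ?_
            · intro i hi; simp [hb, hi]
            · intro i
              by_cases hi : i ∈ S
              · simp [hb, hi]
              · simp [hb, hi]
    calc K * nT p (TN g A N univ)
        ≤ K * (ENNReal.ofReal U * lq q (fun i => nT p (TN g A N (J i)))) := by gcongr
      _ = ENNReal.ofReal U * (K * lq q (fun i => nT p (TN g A N (J i)))) := by ring
      _ = ENNReal.ofReal U * lq q (fun i => K * nT p (TN g A N (J i))) := by rw [← l3]
      _ ≤ _ := by gcongr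
  obtain ⟨C, _, hC, _⟩ := h6 X g A L hg
  have hcont : Continuous (Ext g univ) := (hC univ ordConnected_univ).1
  obtain ⟨_, hsup⟩ := h5 X (Ext g univ) p hcont
  unfold nR
  rw [hsup]
  refine iSup_le fun R => ?_
  obtain ⟨c', hc'0, hc'⟩ := h2 X g A L p R hg hp.le
  have hlim : Tendsto (fun N : ℕ => ENNReal.ofReal U * (ENNReal.ofReal (Real.pi / 2) *
      (M + S.card * ENNReal.ofReal (c N))) + ENNReal.ofReal (c' N)) atTop
      (𝓝 (ENNReal.ofReal U * (ENNReal.ofReal (Real.pi / 2) * (M + S.card * ENNReal.ofReal 0)) +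
        ENNReal.ofReal 0)) := by
    have a1 : Tendsto (fun N => ENNReal.ofReal (c N)) atTop (𝓝 (ENNReal.ofReal 0)) :=
      ENNReal.tendsto_ofReal hc0
    have a2 : Tendsto (fun N => ENNReal.ofReal (c' N)) atTop (𝓝 (ENNReal.ofReal 0)) :=
      ENNReal.tendsto_ofReal hc'0
    refine Tendsto.add ?_ a2
    refine ENNReal.Tendsto.const_mul ?_ (Or.inr ENNReal.ofReal_ne_top)
    refine ENNReal.Tendsto.const_mul ?_ (Or.inr ENNReal.ofReal_ne_top)
    refine Tendsto.add tendsto_const_nhds ?_
    exact ENNReal.Tendsto.const_mul a1 (Or.inr (ENNReal.natCast_ne_top _))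
  have hfinal : ENNReal.ofReal (U * (Real.pi / 2)) * M =
      ENNReal.ofReal U * (ENNReal.ofReal (Real.pi / 2) * (M + S.card * ENNReal.ofReal 0)) +
        ENNReal.ofReal 0 := by
    rw [ENNReal.ofReal_zero, mul_zero, add_zero, add_zero, ENNReal.ofReal_mul hU.le, mul_assoc]
  show _ ≤ ENNReal.ofReal (U * (Real.pi / 2)) * M
  rw [hfinal]
  refine ge_of_tendsto hlim ?_
  filter_upwards [eventually_ge_atTop (max 1 (2 * R))] with N hN
  have hN1 : 1 ≤ N := le_trans (le_max_left _ _) hN
  have hN2 : 2 * R ≤ N := le_trans (le_max_right _ _) hN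
  exact (hc' N hN1 hN2 univ ordConnected_univ).trans (add_le_add (key N hN1) le_rfl)

end Pool.Agent.R799.FDFIN
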