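import Pool.Agent.R799.Mutant

/-!
# Invariance of `nInv` under relabelling of the rows and columns
-/

set_option autoImplicit false

namespace Pool.Agent.R799

open LaurentPolynomial Matrix

variable {m n l : Type*} [Fintype m] [Fintype n] [Fintype l]

lemma range_submatrix (N' : Matrix n n Lam) (e : l ≃ n) :
    (LinearMap.range N'.mulVecLin).map (LinearEquiv.funCongrLeft Lam Lam e : (n → Lam) →ₗ[Lam] _) =
      LinearMap.range (N'.submatrix e e).mulVecLin := by
  ext y
  constructor
  · rintro ⟨_, ⟨x, rfl⟩, rfl⟩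
    refine ⟨x ∘ e, ?_⟩
    rw [Matrix.mulVecLin_apply, Matrix.submatrix_mulVec_equiv]
    funext i
    simp [Function.comp_def, LinearEquiv.funCongrLeft_apply, LinearMap.funLeft]
  · rintro ⟨x, rfl⟩
    refine ⟨N' *ᵥ (x ∘ e.symm), ⟨_, rfl⟩, ?_⟩
    rw [Matrix.mulVecLin_apply, Matrix.submatrix_mulVec_equiv]
    funext i
    simp [LinearEquiv.funCongrLeft_apply, LinearMap.funLeft]

lemma pairing_submatrix (P : Matrix n n Om) (e : l ≃ n) (a b : l → Lam) :
    pairing (P.submatrix e e) a b = pairing P (a ∘ e.symm) (b ∘ e.symm) := by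
  unfold pairing
  rw [Matrix.submatrix_mulVec_equiv]
  unfold dotProduct
  rw [← Equiv.sum_comp e]
  refine Finset.sum_congr rfl fun i _ => ?_
  simp [Function.comp_def]

lemma IsometricPairings.submatrix {N : Matrix m m Lam} {P : Matrix m m Om} {N' : Matrix n n Lam}
    {P' : Matrix n n Om} (h : IsometricPairings N P N' P') (e : l ≃ n) :
    IsometricPairings N P (N'.submatrix e e) (P'.submatrix e e) := by
  rw [iso_iff] at h ⊢
  obtain ⟨f, hf⟩ := h
  let s : CokerQ N' ≃ₗ[Lam] CokerQ (N'.submatrix e e) :=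
    Submodule.Quotient.equiv _ _ (LinearEquiv.funCongrLeft Lam Lam e) (range_submatrix N' e)
  refine ⟨f.trans s, fun a b a' b' ha hb => ?_⟩
  have key : ∀ (a : m → Lam) (a' : l → Lam),
      (f.trans s) (Submodule.Quotient.mk a) = Submodule.Quotient.mk a' →
      f (Submodule.Quotient.mk a) = Submodule.Quotient.mk (a' ∘ e.symm) := by
    intro a a' h
    apply s.injective
    rw [LinearEquiv.trans_apply] at h
    rw [h]
    show _ = Submodule.Quotient.mk ((LinearEquiv.funCongrLeft Lam Lam e) (a' ∘ e.symm))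
    congr 1
    funext i
    simp [LinearEquiv.funCongrLeft_apply, LinearMap.funLeft]
  rw [pairing_submatrix]
  exact hf a b _ _ (key a a' ha) (key b b' hb)

lemma alexanderMatrix_submatrix (V : Matrix n n ℤ) (e : l ≃ n) :
    alexanderMatrix (V.submatrix e e) = (alexanderMatrix V).submatrix e e := rfl

lemma blanchfieldMatrix_submatrix [DecidableEq n] [DecidableEq l] (V : Matrix n n ℤ)
    (e : l ≃ n) : blanchfieldMatrix (V.submatrix e e) = (blanchfieldMatrix V).submatrix e e := by
  unfold blanchfieldMatrix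
  rw [alexanderMatrix_submatrix]
  have h : toOm ((alexanderMatrix V).submatrix e e) = (toOm (alexanderMatrix V)).submatrix e e :=
    rfl
  rw [h, Matrix.inv_submatrix_equiv]
  rfl

lemma PresentsBlanchfield.submatrix [DecidableEq n] [DecidableEq l] {k : ℕ}
    {A : Matrix (Fin k) (Fin k) Lam} {V : Matrix n n ℤ} (h : PresentsBlanchfield A V)
    (e : l ≃ n) : PresentsBlanchfield A (V.submatrix e e) := by
  refine ⟨h.1, h.2.1, ?_⟩
  rw [alexanderMatrix_submatrix, blanchfieldMatrix_submatrix]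
  exact h.2.2.submatrix e

lemma nInv_submatrix [DecidableEq n] [DecidableEq l] (V : Matrix n n ℤ) (e : l ≃ n) :
    nInv (V.submatrix e e) = nInv V := by
  unfold nInv
  congr 1
  ext k
  constructor
  · rintro ⟨A, hA, hc⟩
    refine ⟨A, ?_, hc⟩
    have := hA.submatrix e.symm
    rwa [Matrix.submatrix_submatrix, Equiv.self_comp_symm, Matrix.submatrix_id_id] at this
  · rintro ⟨A, hA, hc⟩
    exact ⟨A, hA.submatrix e, hc⟩

/-- The block sum of two `2 × 2` matrices as a relabelled `4 × 4` matrix. -/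
lemma block_VR : Matrix.fromBlocks !![5, 1; 2, 9] 0 0 !![5, 1; 2, 9]ᵀ =
    VR.submatrix (finSumFinEquiv : Fin 2 ⊕ Fin 2 ≃ Fin (2 + 2)) finSumFinEquiv := by
  decide

lemma block_VK : Matrix.fromBlocks !![5, 1; 2, 9] 0 0 !![5, 1; 2, 9] =
    VK.submatrix (finSumFinEquiv : Fin 2 ⊕ Fin 2 ≃ Fin (2 + 2)) finSumFinEquiv := by
  decide

theorem nInv_block_R :
    nInv (Matrix.fromBlocks !![5, 1; 2, 9] 0 0 !![5, 1; 2, 9]ᵀ) = 2 := by
  rw [block_VR, nInv_submatrix]
  exact nInv_VR

theorem nInv_block_K :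
    3 ≤ nInv (Matrix.fromBlocks !![5, 1; 2, 9] 0 0 !![5, 1; 2, 9]) := by
  rw [block_VK, nInv_submatrix]
  exact three_le_nInv_VK

end Pool.Agent.R799
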