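import Mathlib

/-!
# Matrix identities over a commutative ring with `t s = 1`
-/

set_option autoImplicit false

namespace Pool.Agent.R799.MutMat

open Matrix

variable {R : Type*} [CommRing R]

def NR (t : R) : Matrix (Fin 4) (Fin 4) R :=
  !![-5 + 5 * t, -2 + t, 0, 0;
    -1 + 2 * t, -9 + 9 * t, 0, 0;
    0, 0, -5 + 5 * t, -1 + 2 * t;
    0, 0, -2 + t, -9 + 9 * t]

def BR (t : R) : Matrix (Fin 4) (Fin 4) R :=
  !![-9 + 9 * t, 2 - t, 0, 0;
    1 - 2 * t, -5 + 5 * t, 0, 0;
    0, 0, -9 + 9 * t, 1 - 2 * t;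
    0, 0, 2 - t, -5 + 5 * t]

def NK (t : R) : Matrix (Fin 4) (Fin 4) R :=
  !![-5 + 5 * t, -2 + t, 0, 0;
    -1 + 2 * t, -9 + 9 * t, 0, 0;
    0, 0, -5 + 5 * t, -2 + t;
    0, 0, -1 + 2 * t, -9 + 9 * t]

def BK (t : R) : Matrix (Fin 4) (Fin 4) R :=
  !![-9 + 9 * t, 2 - t, 0, 0;
    1 - 2 * t, -5 + 5 * t, 0, 0;
    0, 0, -9 + 9 * t, 2 - t;
    0, 0, 1 - 2 * t, -5 + 5 * t]

def AR (t s : R) : Matrix (Fin 2) (Fin 2) R :=
  !![85 - 43 * s - 43 * t, 0;
    0, 85 - 43 * s - 43 * t]

def GR : Matrix (Fin 4) (Fin 2) R :=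
  !![0, -1;
    2, -2;
    1, 0;
    2, 2]

def XR (t s : R) : Matrix (Fin 2) (Fin 4) R :=
  !![-6 + 2 * s + 4 * t, 20 - 10 * s - 10 * t, 12 - 5 * s - 7 * t, 17 - 9 * s - 8 * t;
    -12 + 7 * s + 5 * t, -17 + 8 * s + 9 * t, -6 + 4 * s + 2 * t, 20 - 10 * s - 10 * t]

def ZR (t s : R) : Matrix (Fin 4) (Fin 2) R :=
  !![2 - 4 * s, 7 - 5 * s;
    -10 + 10 * s, 8 - 9 * s;
    -5 + 7 * s, 4 - 2 * s;
    -9 + 8 * s, -10 + 10 * s]

def WR (t s : R) : Matrix (Fin 2) (Fin 4) R :=
  !![0, -2 + 2 * t, -1 + t, -2 + 2 * t;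
    1 - t, 2 - 2 * t, 0, -2 + 2 * t]

def YR1 (t s : R) : Matrix (Fin 2) (Fin 2) R :=
  !![-1, 0;
    0, -1]

def YR2 (t s : R) : Matrix (Fin 4) (Fin 4) R :=
  !![1 - s, 1, 0, -2 + 2 * s;
    -s, 4 - 4 * s, 2 - 2 * s, 0;
    0, 2 - 2 * s, 1 - s, -s;
    -2 + 2 * s, 0, 1, 4 - 4 * s]

def AK (t s : R) : Matrix (Fin 4) (Fin 4) R :=
  !![5, -2 + t, 0, 0;
    -2 + s, 18 - 9 * s - 9 * t, 0, 0;
    0, 0, 5, -2 + t;
    0, 0, -2 + s, 18 - 9 * s - 9 * t]

def CK (t s : R) : Matrix (Fin 4) (Fin 4) R :=
  !![18 - 9 * s - 9 * t, 2 - t, 0, 0;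
    2 - s, 5, 0, 0;
    0, 0, 18 - 9 * s - 9 * t, 2 - t;
    0, 0, 2 - s, 5]

def GK (s : R) : Matrix (Fin 4) (Fin 4) R :=
  !![1, 0, 0, 0;
    0, -1 + s, 0, 0;
    0, 0, 1, 0;
    0, 0, 0, -1 + s]

def XK (t : R) : Matrix (Fin 4) (Fin 4) R :=
  !![1, 0, 0, 0;
    0, -43 + 43 * t, 0, 0;
    0, 0, 1, 0;
    0, 0, 0, -43 + 43 * t]

def ZK (t s : R) : Matrix (Fin 4) (Fin 4) R :=
  !![-1 + t, 0, 0, 0;
    0, 1, 0, 0;
    0, 0, -1 + t, 0;
    0, 0, 0, 1]

def WK (t s : R) : Matrix (Fin 4) (Fin 4) R :=
  !![2 - 2 * s, -27 + 18 * s + 9 * t, 0, 0;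
    -10 + 5 * s, 91 - 45 * s - 45 * t, 0, 0;
    0, 0, 2 - 2 * s, -27 + 18 * s + 9 * t;
    0, 0, -10 + 5 * s, 91 - 45 * s - 45 * t]

def YK1 (t s : R) : Matrix (Fin 4) (Fin 4) R :=
  !![0, -1 + 2 * s, 0, 0;
    0, 5 - 5 * s, 0, 0;
    0, 0, 0, -1 + 2 * s;
    0, 0, 0, 5 - 5 * s]

def YK2 (t s : R) : Matrix (Fin 4) (Fin 4) R :=
  !![0, -2 + t, 0, 0;
    0, -5, 0, 0;
    0, 0, 0, -2 + t;
    0, 0, 0, -5]

lemma NR_BR (t s : R) (h : t * s = 1) : NR t * BR t = (43 * t ^ 2 - 85 * t + 43) • (1 : Matrix (Fin 4) (Fin 4) R) := by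
  ext i j
  simp only [Matrix.mul_apply, Matrix.smul_apply, Matrix.sub_apply, Matrix.transpose_apply, Fin.sum_univ_four, Fin.sum_univ_two]
  fin_cases i <;> fin_cases j
  · simp [NR, BR] <;> linear_combination (0) * h
  · simp [NR, BR] <;> linear_combination (0) * h
  · simp [NR, BR] <;> linear_combination (0) * h
  · simp [NR, BR] <;> linear_combination (0) * h
  · simp [NR, BR] <;> linear_combination (0) * h
  · simp [NR, BR] <;> linear_combination (0) * h
  · simp [NR, BR] <;> linear_combination (0) * h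
  · simp [NR, BR] <;> linear_combination (0) * h
  · simp [NR, BR] <;> linear_combination (0) * h
  · simp [NR, BR] <;> linear_combination (0) * h
  · simp [NR, BR] <;> linear_combination (0) * h
  · simp [NR, BR] <;> linear_combination (0) * h
  · simp [NR, BR] <;> linear_combination (0) * h
  · simp [NR, BR] <;> linear_combination (0) * h
  · simp [NR, BR] <;> linear_combination (0) * h
  · simp [NR, BR] <;> linear_combination (0) * h

lemma NK_BK (t s : R) (h : t * s = 1) : NK t * BK t = (43 * t ^ 2 - 85 * t + 43) • (1 : Matrix (Fin 4) (Fin 4) R) := by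
  ext i j
  simp only [Matrix.mul_apply, Matrix.smul_apply, Matrix.sub_apply, Matrix.transpose_apply, Fin.sum_univ_four, Fin.sum_univ_two]
  fin_cases i <;> fin_cases j
  · simp [NK, BK] <;> linear_combination (0) * h
  · simp [NK, BK] <;> linear_combination (0) * h
  · simp [NK, BK] <;> linear_combination (0) * h
  · simp [NK, BK] <;> linear_combination (0) * h
  · simp [NK, BK] <;> linear_combination (0) * h
  · simp [NK, BK] <;> linear_combination (0) * h
  · simp [NK, BK] <;> linear_combination (0) * h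
  · simp [NK, BK] <;> linear_combination (0) * h
  · simp [NK, BK] <;> linear_combination (0) * h
  · simp [NK, BK] <;> linear_combination (0) * h
  · simp [NK, BK] <;> linear_combination (0) * h
  · simp [NK, BK] <;> linear_combination (0) * h
  · simp [NK, BK] <;> linear_combination (0) * h
  · simp [NK, BK] <;> linear_combination (0) * h
  · simp [NK, BK] <;> linear_combination (0) * h
  · simp [NK, BK] <;> linear_combination (0) * h

lemma GR_AR (t s : R) (h : t * s = 1) : (GR : Matrix (Fin 4) (Fin 2) R) * AR t s = NR t * ZR t s := by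
  ext i j
  simp only [Matrix.mul_apply, Matrix.smul_apply, Matrix.sub_apply, Matrix.transpose_apply, Fin.sum_univ_four, Fin.sum_univ_two]
  fin_cases i <;> fin_cases j
  · simp [NR, AR, GR, ZR] <;> linear_combination (10) * h
  · simp [NR, AR, GR, ZR] <;> linear_combination (34) * h
  · simp [NR, AR, GR, ZR] <;> linear_combination (-82) * h
  · simp [NR, AR, GR, ZR] <;> linear_combination (91) * h
  · simp [NR, AR, GR, ZR] <;> linear_combination (-51) * h
  · simp [NR, AR, GR, ZR] <;> linear_combination (-10) * h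
  · simp [NR, AR, GR, ZR] <;> linear_combination (-79) * h
  · simp [NR, AR, GR, ZR] <;> linear_combination (-88) * h

lemma XR_NR (t s : R) (h : t * s = 1) : XR t s * NR t = AR t s * WR t s := by
  ext i j
  simp only [Matrix.mul_apply, Matrix.smul_apply, Matrix.sub_apply, Matrix.transpose_apply, Fin.sum_univ_four, Fin.sum_univ_two]
  fin_cases i <;> fin_cases j
  · simp [NR, AR, XR, WR] <;> linear_combination (-10) * h
  · simp [NR, AR, XR, WR] <;> linear_combination (-2) * h
  · simp [NR, AR, XR, WR] <;> linear_combination (9) * h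
  · simp [NR, AR, XR, WR] <;> linear_combination (-5) * h
  · simp [NR, AR, XR, WR] <;> linear_combination (8) * h
  · simp [NR, AR, XR, WR] <;> linear_combination (-7) * h
  · simp [NR, AR, XR, WR] <;> linear_combination (10) * h
  · simp [NR, AR, XR, WR] <;> linear_combination (4) * h

lemma XR_GR (t s : R) (h : t * s = 1) : XR t s * (GR : Matrix (Fin 4) (Fin 2) R) = 1 - AR t s * YR1 t s := by
  ext i j
  simp only [Matrix.mul_apply, Matrix.smul_apply, Matrix.sub_apply, Matrix.transpose_apply, Fin.sum_univ_four, Fin.sum_univ_two]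
  fin_cases i <;> fin_cases j
  · simp [AR, GR, XR, YR1] <;> linear_combination (0) * h
  · simp [AR, GR, XR, YR1] <;> linear_combination (0) * h
  · simp [AR, GR, XR, YR1] <;> linear_combination (0) * h
  · simp [AR, GR, XR, YR1] <;> linear_combination (0) * h

lemma GR_XR (t s : R) (h : t * s = 1) : (GR : Matrix (Fin 4) (Fin 2) R) * XR t s = 1 - NR t * YR2 t s := by
  ext i j
  simp only [Matrix.mul_apply, Matrix.smul_apply, Matrix.sub_apply, Matrix.transpose_apply, Fin.sum_univ_four, Fin.sum_univ_two]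
  fin_cases i <;> fin_cases j
  · simp [NR, GR, XR, YR2] <;> linear_combination (-6) * h
  · simp [NR, GR, XR, YR2] <;> linear_combination (-4) * h
  · simp [NR, GR, XR, YR2] <;> linear_combination (-2) * h
  · simp [NR, GR, XR, YR2] <;> linear_combination (10) * h
  · simp [NR, GR, XR, YR2] <;> linear_combination (-11) * h
  · simp [NR, GR, XR, YR2] <;> linear_combination (-36) * h
  · simp [NR, GR, XR, YR2] <;> linear_combination (-18) * h
  · simp [NR, GR, XR, YR2] <;> linear_combination (4) * h
  · simp [NR, GR, XR, YR2] <;> linear_combination (4) * h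
  · simp [NR, GR, XR, YR2] <;> linear_combination (-10) * h
  · simp [NR, GR, XR, YR2] <;> linear_combination (-5) * h
  · simp [NR, GR, XR, YR2] <;> linear_combination (-13) * h
  · simp [NR, GR, XR, YR2] <;> linear_combination (18) * h
  · simp [NR, GR, XR, YR2] <;> linear_combination (-2) * h
  · simp [NR, GR, XR, YR2] <;> linear_combination (-1) * h
  · simp [NR, GR, XR, YR2] <;> linear_combination (-37) * h

lemma GBG (t s : R) (h : t * s = 1) : (GR : Matrix (Fin 4) (Fin 2) R)ᵀ * ((t - 1) • BR t) * (GR : Matrix (Fin 4) (Fin 2) R) = (-t + (43 * t ^ 2 - 85 * t + 43)) • (1 : Matrix (Fin 2) (Fin 2) R) := by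
  ext i j
  simp only [Matrix.mul_apply, Matrix.smul_apply, Matrix.sub_apply, Matrix.transpose_apply, Fin.sum_univ_four, Fin.sum_univ_two]
  fin_cases i <;> fin_cases j
  · simp [BR, GR] <;> linear_combination (0) * h
  · simp [BR, GR] <;> linear_combination (0) * h
  · simp [BR, GR] <;> linear_combination (0) * h
  · simp [BR, GR] <;> linear_combination (0) * h

lemma AK_CK (t s : R) (h : t * s = 1) : AK t s * CK t s = (-(43 * t - 85 + 43 * s)) • (1 : Matrix (Fin 4) (Fin 4) R) := by
  ext i j
  simp only [Matrix.mul_apply, Matrix.smul_apply, Matrix.sub_apply, Matrix.transpose_apply, Fin.sum_univ_four, Fin.sum_univ_two]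
  fin_cases i <;> fin_cases j
  · simp [AK, CK] <;> linear_combination (-1) * h
  · simp [AK, CK] <;> linear_combination (0) * h
  · simp [AK, CK] <;> linear_combination (0) * h
  · simp [AK, CK] <;> linear_combination (0) * h
  · simp [AK, CK] <;> linear_combination (0) * h
  · simp [AK, CK] <;> linear_combination (-1) * h
  · simp [AK, CK] <;> linear_combination (0) * h
  · simp [AK, CK] <;> linear_combination (0) * h
  · simp [AK, CK] <;> linear_combination (0) * h
  · simp [AK, CK] <;> linear_combination (0) * h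
  · simp [AK, CK] <;> linear_combination (-1) * h
  · simp [AK, CK] <;> linear_combination (0) * h
  · simp [AK, CK] <;> linear_combination (0) * h
  · simp [AK, CK] <;> linear_combination (0) * h
  · simp [AK, CK] <;> linear_combination (0) * h
  · simp [AK, CK] <;> linear_combination (-1) * h

lemma CK_AK (t s : R) (h : t * s = 1) : CK t s * AK t s = (-(43 * t - 85 + 43 * s)) • (1 : Matrix (Fin 4) (Fin 4) R) := by
  ext i j
  simp only [Matrix.mul_apply, Matrix.smul_apply, Matrix.sub_apply, Matrix.transpose_apply, Fin.sum_univ_four, Fin.sum_univ_two]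
  fin_cases i <;> fin_cases j
  · simp [AK, CK] <;> linear_combination (-1) * h
  · simp [AK, CK] <;> linear_combination (0) * h
  · simp [AK, CK] <;> linear_combination (0) * h
  · simp [AK, CK] <;> linear_combination (0) * h
  · simp [AK, CK] <;> linear_combination (0) * h
  · simp [AK, CK] <;> linear_combination (-1) * h
  · simp [AK, CK] <;> linear_combination (0) * h
  · simp [AK, CK] <;> linear_combination (0) * h
  · simp [AK, CK] <;> linear_combination (0) * h
  · simp [AK, CK] <;> linear_combination (0) * h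
  · simp [AK, CK] <;> linear_combination (-1) * h
  · simp [AK, CK] <;> linear_combination (0) * h
  · simp [AK, CK] <;> linear_combination (0) * h
  · simp [AK, CK] <;> linear_combination (0) * h
  · simp [AK, CK] <;> linear_combination (0) * h
  · simp [AK, CK] <;> linear_combination (-1) * h

lemma GK_NK (t s : R) (h : t * s = 1) : GK s * NK t = AK t s * ZK t s := by
  ext i j
  simp only [Matrix.mul_apply, Matrix.smul_apply, Matrix.sub_apply, Matrix.transpose_apply, Fin.sum_univ_four, Fin.sum_univ_two]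
  fin_cases i <;> fin_cases j
  · simp [NK, AK, GK, ZK] <;> linear_combination (0) * h
  · simp [NK, AK, GK, ZK] <;> linear_combination (0) * h
  · simp [NK, AK, GK, ZK] <;> linear_combination (0) * h
  · simp [NK, AK, GK, ZK] <;> linear_combination (0) * h
  · simp [NK, AK, GK, ZK] <;> linear_combination (1) * h
  · simp [NK, AK, GK, ZK] <;> linear_combination (9) * h
  · simp [NK, AK, GK, ZK] <;> linear_combination (0) * h
  · simp [NK, AK, GK, ZK] <;> linear_combination (0) * h
  · simp [NK, AK, GK, ZK] <;> linear_combination (0) * h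
  · simp [NK, AK, GK, ZK] <;> linear_combination (0) * h
  · simp [NK, AK, GK, ZK] <;> linear_combination (0) * h
  · simp [NK, AK, GK, ZK] <;> linear_combination (0) * h
  · simp [NK, AK, GK, ZK] <;> linear_combination (0) * h
  · simp [NK, AK, GK, ZK] <;> linear_combination (0) * h
  · simp [NK, AK, GK, ZK] <;> linear_combination (1) * h
  · simp [NK, AK, GK, ZK] <;> linear_combination (9) * h

lemma XK_AK (t s : R) (h : t * s = 1) : XK t * AK t s = NK t * WK t s := by
  ext i j
  simp only [Matrix.mul_apply, Matrix.smul_apply, Matrix.sub_apply, Matrix.transpose_apply, Fin.sum_univ_four, Fin.sum_univ_two]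
  fin_cases i <;> fin_cases j
  · simp [NK, AK, XK, WK] <;> linear_combination (5) * h
  · simp [NK, AK, XK, WK] <;> linear_combination (-45) * h
  · simp [NK, AK, XK, WK] <;> linear_combination (0) * h
  · simp [NK, AK, XK, WK] <;> linear_combination (0) * h
  · simp [NK, AK, XK, WK] <;> linear_combination (2) * h
  · simp [NK, AK, XK, WK] <;> linear_combination (-18) * h
  · simp [NK, AK, XK, WK] <;> linear_combination (0) * h
  · simp [NK, AK, XK, WK] <;> linear_combination (0) * h
  · simp [NK, AK, XK, WK] <;> linear_combination (0) * h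
  · simp [NK, AK, XK, WK] <;> linear_combination (0) * h
  · simp [NK, AK, XK, WK] <;> linear_combination (5) * h
  · simp [NK, AK, XK, WK] <;> linear_combination (-45) * h
  · simp [NK, AK, XK, WK] <;> linear_combination (0) * h
  · simp [NK, AK, XK, WK] <;> linear_combination (0) * h
  · simp [NK, AK, XK, WK] <;> linear_combination (2) * h
  · simp [NK, AK, XK, WK] <;> linear_combination (-18) * h

lemma XK_GK (t s : R) (h : t * s = 1) : XK t * GK s = 1 - NK t * YK1 t s := by
  ext i j
  simp only [Matrix.mul_apply, Matrix.smul_apply, Matrix.sub_apply, Matrix.transpose_apply, Fin.sum_univ_four, Fin.sum_univ_two]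
  fin_cases i <;> fin_cases j
  · simp [NK, GK, XK, YK1] <;> linear_combination (0) * h
  · simp [NK, GK, XK, YK1] <;> linear_combination (5) * h
  · simp [NK, GK, XK, YK1] <;> linear_combination (0) * h
  · simp [NK, GK, XK, YK1] <;> linear_combination (0) * h
  · simp [NK, GK, XK, YK1] <;> linear_combination (0) * h
  · simp [NK, GK, XK, YK1] <;> linear_combination (2) * h
  · simp [NK, GK, XK, YK1] <;> linear_combination (0) * h
  · simp [NK, GK, XK, YK1] <;> linear_combination (0) * h
  · simp [NK, GK, XK, YK1] <;> linear_combination (0) * h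
  · simp [NK, GK, XK, YK1] <;> linear_combination (0) * h
  · simp [NK, GK, XK, YK1] <;> linear_combination (0) * h
  · simp [NK, GK, XK, YK1] <;> linear_combination (5) * h
  · simp [NK, GK, XK, YK1] <;> linear_combination (0) * h
  · simp [NK, GK, XK, YK1] <;> linear_combination (0) * h
  · simp [NK, GK, XK, YK1] <;> linear_combination (0) * h
  · simp [NK, GK, XK, YK1] <;> linear_combination (2) * h

lemma GK_XK (t s : R) (h : t * s = 1) : GK s * XK t = 1 - AK t s * YK2 t s := by
  ext i j
  simp only [Matrix.mul_apply, Matrix.smul_apply, Matrix.sub_apply, Matrix.transpose_apply, Fin.sum_univ_four, Fin.sum_univ_two]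
  fin_cases i <;> fin_cases j
  · simp [AK, GK, XK, YK2] <;> linear_combination (0) * h
  · simp [AK, GK, XK, YK2] <;> linear_combination (0) * h
  · simp [AK, GK, XK, YK2] <;> linear_combination (0) * h
  · simp [AK, GK, XK, YK2] <;> linear_combination (0) * h
  · simp [AK, GK, XK, YK2] <;> linear_combination (0) * h
  · simp [AK, GK, XK, YK2] <;> linear_combination (44) * h
  · simp [AK, GK, XK, YK2] <;> linear_combination (0) * h
  · simp [AK, GK, XK, YK2] <;> linear_combination (0) * h
  · simp [AK, GK, XK, YK2] <;> linear_combination (0) * h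
  · simp [AK, GK, XK, YK2] <;> linear_combination (0) * h
  · simp [AK, GK, XK, YK2] <;> linear_combination (0) * h
  · simp [AK, GK, XK, YK2] <;> linear_combination (0) * h
  · simp [AK, GK, XK, YK2] <;> linear_combination (0) * h
  · simp [AK, GK, XK, YK2] <;> linear_combination (0) * h
  · simp [AK, GK, XK, YK2] <;> linear_combination (0) * h
  · simp [AK, GK, XK, YK2] <;> linear_combination (44) * h

lemma GCG (t s : R) (h : t * s = 1) : (GK t)ᵀ * CK t s * GK s = (-(s * (t - 1))) • BK t := by
  ext i j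
  simp only [Matrix.mul_apply, Matrix.smul_apply, Matrix.sub_apply, Matrix.transpose_apply, Fin.sum_univ_four, Fin.sum_univ_two]
  fin_cases i <;> fin_cases j
  · simp [BK, CK, GK] <;> linear_combination (-18 + 9 * t) * h
  · simp [BK, CK, GK] <;> linear_combination (2 - t) * h
  · simp [BK, CK, GK] <;> linear_combination (0) * h
  · simp [BK, CK, GK] <;> linear_combination (0) * h
  · simp [BK, CK, GK] <;> linear_combination (2 - 2 * t) * h
  · simp [BK, CK, GK] <;> linear_combination (-5 + 5 * t) * h
  · simp [BK, CK, GK] <;> linear_combination (0) * h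
  · simp [BK, CK, GK] <;> linear_combination (0) * h
  · simp [BK, CK, GK] <;> linear_combination (0) * h
  · simp [BK, CK, GK] <;> linear_combination (0) * h
  · simp [BK, CK, GK] <;> linear_combination (-18 + 9 * t) * h
  · simp [BK, CK, GK] <;> linear_combination (2 - t) * h
  · simp [BK, CK, GK] <;> linear_combination (0) * h
  · simp [BK, CK, GK] <;> linear_combination (0) * h
  · simp [BK, CK, GK] <;> linear_combination (2 - 2 * t) * h
  · simp [BK, CK, GK] <;> linear_combination (-5 + 5 * t) * h

end Pool.Agent.R799.MutMat
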