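import Mathlib

/-!
# Arithmetic of the Alexander module of the pretzel knot P(7,3,15)

`τ` is the root of `43 t² - 85 t + 43`; the ring `ℤ[τ, τ⁻¹]` is `ℤ[θ, 1/43]` with
`θ² - θ + 43 = 0`.
-/

namespace Pool.Agent.R799

open LaurentPolynomial

/-- `θ = (1 + √-171)/2`. -/
noncomputable def theta : ℂ := ⟨1 / 2, Real.sqrt 171 / 2⟩

lemma theta_sq : theta * theta = theta - 43 := by
  have h : Real.sqrt 171 * Real.sqrt 171 = 171 := Real.mul_self_sqrt (by norm_num)
  apply Complex.ext
  · simp only [theta, Complex.mul_re, Complex.sub_re]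
    norm_num
    linarith
  · simp only [theta, Complex.mul_im, Complex.sub_im]
    norm_num
    ring

lemma normSq_theta (x y : ℤ) :
    Complex.normSq ((x : ℂ) + y * theta) = ((x * x + x * y + 43 * (y * y) : ℤ) : ℝ) := by
  have h : Real.sqrt 171 * Real.sqrt 171 = 171 := Real.mul_self_sqrt (by norm_num)
  rw [Complex.normSq_apply]
  have hre : ((x : ℂ) + y * theta).re = x + y / 2 := by
    simp [theta]; ring
  have him : ((x : ℂ) + y * theta).im = y * Real.sqrt 171 / 2 := by
    simp [theta]; ring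
  rw [hre, him]
  push_cast
  linear_combination (y * y / 4 : ℝ) * h

/-- The root `τ = (42 + θ)/43` of `43 t² - 85 t + 43`, as a unit of `ℂ`. -/
noncomputable def tau : ℂˣ where
  val := (42 + theta) / 43
  inv := (43 - theta) / 43
  val_inv := by
    have := theta_sq
    field_simp
    linear_combination -this
  inv_val := by
    have := theta_sq
    field_simp
    linear_combination -this

/-- The unit `3` modulo `25`. -/
def three : (ZMod 25)ˣ where
  val := 3
  inv := 17
  val_inv := by decide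
  inv_val := by decide

/-- Evaluation at `τ`. -/
noncomputable def ev : ℤ[T;T⁻¹] →+* ℂ := eval₂ (Int.castRingHom ℂ) tau

/-- Evaluation at `3` modulo `25`. -/
noncomputable def chi : ℤ[T;T⁻¹] →+* ZMod 25 := eval₂ (Int.castRingHom (ZMod 25)) three

lemma ev_T : ev (T 1) = (42 + theta) / 43 := by
  unfold ev; rw [eval₂_T]; simp [tau]

lemma ev_Tinv : ev (T (-1)) = (43 - theta) / 43 := by
  unfold ev; rw [eval₂_T, zpow_neg_one]; rfl

lemma chi_T : chi (T 1) = 3 := by
  unfold chi; rw [eval₂_T]; simp [three]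

lemma chi_Tinv : chi (T (-1)) = 17 := by
  unfold chi; rw [eval₂_T, zpow_neg_one]; rfl

/-- `z` and `c` are the values of one element `(x + y θ)/43ᵏ`. -/
def Good (z : ℂ) (c : ZMod 25) : Prop :=
  ∃ (k : ℕ) (x y : ℤ), 43 ^ k * z = x + y * theta ∧ 43 ^ k * c = x + 12 * y

lemma Good.add {z w : ℂ} {c d : ZMod 25} (h : Good z c) (h' : Good w d) : Good (z + w) (c + d) := by
  obtain ⟨k, x, y, h1, h2⟩ := h
  obtain ⟨l, u, v, h3, h4⟩ := h'
  refine ⟨k + l, 43 ^ l * x + 43 ^ k * u, 43 ^ l * y + 43 ^ k * v, ?_, ?_⟩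
  · push_cast
    rw [pow_add]
    linear_combination (43 ^ l : ℂ) * h1 + (43 ^ k : ℂ) * h3
  · push_cast
    rw [pow_add]
    linear_combination (43 ^ l : ZMod 25) * h2 + (43 ^ k : ZMod 25) * h4

lemma Good.mul {z w : ℂ} {c d : ZMod 25} (h : Good z c) (h' : Good w d) : Good (z * w) (c * d) := by
  obtain ⟨k, x, y, h1, h2⟩ := h
  obtain ⟨l, u, v, h3, h4⟩ := h'
  refine ⟨k + l, x * u - 43 * (y * v), x * v + y * u + y * v, ?_, ?_⟩
  · push_cast
    have e : (43 : ℂ) ^ (k + l) * (z * w) = (43 ^ k * z) * (43 ^ l * w) := by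
      rw [pow_add]; ring
    rw [e, h1, h3]
    linear_combination (y * v : ℂ) * theta_sq
  · push_cast
    have e : (43 : ZMod 25) ^ (k + l) * (c * d) = (43 ^ k * c) * (43 ^ l * d) := by
      rw [pow_add]; ring
    rw [e, h2, h4]
    have h25 : (25 : ZMod 25) = 0 := by decide
    linear_combination (7 * (y : ZMod 25) * v) * h25

lemma good_int (n : ℤ) : Good n n := ⟨0, n, 0, by simp, by simp⟩

lemma good_tau : Good ((42 + theta) / 43) 3 :=
  ⟨1, 42, 1, by push_cast; ring, by decide⟩

lemma good_tau_inv : Good ((43 - theta) / 43) 17 :=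
  ⟨1, 43, -1, by push_cast; ring, by decide⟩

/-- Every Laurent polynomial has compatible values at `τ` and at `3` modulo `25`. -/
lemma good_ev (f : ℤ[T;T⁻¹]) : Good (ev f) (chi f) := by
  induction f using LaurentPolynomial.induction_on with
  | h_C a =>
    have h1 : ev (C a) = a := by unfold ev; rw [eval₂_C]; simp
    have h2 : chi (C a) = a := by unfold chi; rw [eval₂_C]; simp
    rw [h1, h2]
    exact good_int a
  | h_add hf hg =>
    rw [map_add, map_add]
    exact hf.add hg
  | h_C_mul_T n a h =>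
    have e : (C a * T ((n : ℤ) + 1) : ℤ[T;T⁻¹]) = C a * T n * T 1 := by
      rw [mul_assoc, ← T_add]
    rw [e, map_mul ev, map_mul chi, ev_T, chi_T]
    exact h.mul good_tau
  | h_C_mul_T_Z n a h =>
    have e : (C a * T (-(n : ℤ) - 1) : ℤ[T;T⁻¹]) = C a * T (-(n : ℤ)) * T (-1) := by
      rw [mul_assoc, ← T_add]; rfl
    rw [e, map_mul ev, map_mul chi, ev_Tinv, chi_Tinv]
    exact h.mul good_tau_inv

/-- If `x² + x y + 43 y² = 25 · 43ᵏ`, then `x + 12 y` is not divisible by `25`. -/
lemma descent (k : ℕ) : ∀ x y : ℤ, x * x + x * y + 43 * (y * y) = 25 * 43 ^ k →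
    ((x + 12 * y : ℤ) : ZMod 25) ≠ 0 := by
  induction k with
  | zero =>
    intro x y h
    have hy : y = 0 := by
      by_contra hy
      have h1 : 1 ≤ y * y := by
        rcases lt_or_gt_of_ne hy with h' | h'
        · nlinarith
        · nlinarith
      nlinarith [sq_nonneg (2 * x + y)]
    subst hy
    have hx : (x - 5) * (x + 5) = 0 := by linarith
    rcases mul_eq_zero.mp hx with h' | h'
    · have : x = 5 := by linarith
      subst this; decide
    · have : x = -5 := by linarith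
      subst this; decide
  | succ k ih =>
    intro x y h
    have hd : (43 : ℤ) ∣ x * (x + y) := ⟨25 * 43 ^ k - y * y, by rw [pow_succ] at h; linarith⟩
    have hp : Prime (43 : ℤ) := by
      rw [← Nat.cast_ofNat, Nat.prime_iff_prime_int.symm]; norm_num
    rcases hp.dvd_or_dvd hd with ⟨w, hw⟩ | ⟨w, hw⟩
    · subst hw
      have h1 := ih (w + y) (-w) (by
        have : 43 * ((w + y) * (w + y) + (w + y) * -w + 43 * (-w * -w)) =
            43 * (25 * 43 ^ k) := by
          rw [pow_succ] at h; linear_combination h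
        linarith)
      intro h2
      apply h1
      have e : (((w + y) + 12 * (-w) : ℤ) : ZMod 25) =
          23 * ((43 * w + 12 * y : ℤ) : ZMod 25) := by
        push_cast
        have h25 : (25 : ZMod 25) = 0 := by decide
        linear_combination (-40 * (w : ZMod 25) - 11 * y) * h25
      rw [e, h2, mul_zero]
    · have hx : x = 43 * w - y := by linarith
      subst hx
      have h1 := ih (-y) w (by
        have : 43 * (-y * -y + -y * w + 43 * (w * w)) = 43 * (25 * 43 ^ k) := by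
          rw [pow_succ] at h; linear_combination h
        linarith)
      intro h2
      apply h1
      have e : ((-y + 12 * w : ℤ) : ZMod 25) =
          9 * ((43 * w - y + 12 * y : ℤ) : ZMod 25) := by
        push_cast
        have h25 : (25 : ZMod 25) = 0 := by decide
        linear_combination (-15 * (w : ZMod 25) - 4 * y) * h25
      rw [e, h2, mul_zero]

/-- The arithmetic heart: no `δ` divides both `(2t-1)²` and `25 (t-1)²` at `t = τ` and vanishes at
`3` modulo `25`. -/
theorem no_delta (δ η η' : ℤ[T;T⁻¹]) (h1 : ev δ * ev η = (ev (2 * T 1 - 1)) ^ 2)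
    (h2 : ev δ * ev η' = (ev (5 * (T 1 - 1))) ^ 2) (h3 : chi δ = 0) : False := by
  obtain ⟨k, x, y, hz, hc⟩ := good_ev δ
  obtain ⟨l, u, v, hz', -⟩ := good_ev η
  obtain ⟨m, a, b, hz'', -⟩ := good_ev η'
  have e1 : ev (2 * T 1 - 1) * 43 = (41 : ℤ) + (2 : ℤ) * theta := by
    rw [map_sub, map_mul, ev_T, map_one, map_ofNat]
    push_cast; ring
  have e2 : ev (5 * (T 1 - 1)) * 43 = (-5 : ℤ) + (5 : ℤ) * theta := by
    rw [map_mul, map_sub, ev_T, map_one, map_ofNat]
    push_cast; ring
  set D : ℤ := x * x + x * y + 43 * (y * y) with hD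
  set E : ℤ := u * u + u * v + 43 * (v * v) with hE
  set F : ℤ := a * a + a * b + 43 * (b * b) with hF
  have n1 : D * E * 43 ^ 2 = 43 ^ (2 * (k + l)) * 2025 := by
    have h : ((x : ℂ) + y * theta) * (u + v * theta) * 43 ^ 2 =
        43 ^ (k + l) * ((41 : ℤ) + (2 : ℤ) * theta) ^ 2 := by
      rw [← hz, ← hz', ← e1, pow_add]
      linear_combination ((43 : ℂ) ^ k * 43 ^ l * 43 ^ 2) * h1
    have h' := congrArg Complex.normSq h
    rw [map_mul, map_mul, map_mul, map_pow, map_pow, map_pow, normSq_theta, normSq_theta,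
      normSq_theta] at h'
    have h43 : Complex.normSq (43 : ℂ) = 43 ^ 2 := by
      rw [show (43 : ℂ) = ((43 : ℝ) : ℂ) by norm_num, Complex.normSq_ofReal]; norm_num
    rw [h43] at h'
    have h'' : ((D * E * (43 ^ 2) ^ 2 : ℤ) : ℝ) = (((43 ^ 2) ^ (k + l) * 1935 ^ 2 : ℤ) : ℝ) := by
      push_cast
      push_cast at h'
      rw [hD, hE]
      push_cast
      norm_num at h' ⊢
      linear_combination h'
    have h3 : D * E * (43 ^ 2) ^ 2 = (43 ^ 2) ^ (k + l) * 1935 ^ 2 := by exact_mod_cast h''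
    rw [pow_mul]
    have : (43 ^ 2 : ℤ) * (D * E * 43 ^ 2) = 43 ^ 2 * ((43 ^ 2) ^ (k + l) * 2025) := by
      linear_combination h3
    exact mul_left_cancel₀ (by norm_num) this
  have n2 : D * F * 43 ^ 2 = 43 ^ (2 * (k + m)) * 625 := by
    have h : ((x : ℂ) + y * theta) * (a + b * theta) * 43 ^ 2 =
        43 ^ (k + m) * ((-5 : ℤ) + (5 : ℤ) * theta) ^ 2 := by
      rw [← hz, ← hz'', ← e2, pow_add]
      linear_combination ((43 : ℂ) ^ k * 43 ^ m * 43 ^ 2) * h2
    have h' := congrArg Complex.normSq h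
    rw [map_mul, map_mul, map_mul, map_pow, map_pow, map_pow, normSq_theta, normSq_theta,
      normSq_theta] at h'
    have h43 : Complex.normSq (43 : ℂ) = 43 ^ 2 := by
      rw [show (43 : ℂ) = ((43 : ℝ) : ℂ) by norm_num, Complex.normSq_ofReal]; norm_num
    rw [h43] at h'
    have h'' : ((D * F * (43 ^ 2) ^ 2 : ℤ) : ℝ) = (((43 ^ 2) ^ (k + m) * 1075 ^ 2 : ℤ) : ℝ) := by
      push_cast
      push_cast at h'
      rw [hD, hF]
      push_cast
      norm_num at h' ⊢
      linear_combination h'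
    have h3 : D * F * (43 ^ 2) ^ 2 = (43 ^ 2) ^ (k + m) * 1075 ^ 2 := by exact_mod_cast h''
    rw [pow_mul]
    have : (43 ^ 2 : ℤ) * (D * F * 43 ^ 2) = 43 ^ 2 * ((43 ^ 2) ^ (k + m) * 625) := by
      linear_combination h3
    exact mul_left_cancel₀ (by norm_num) this
  -- `25` divides `D`
  have hxy : ((x + 12 * y : ℤ) : ZMod 25) = 0 := by
    push_cast; rw [← hc, h3, mul_zero]
  have h25D : (25 : ℤ) ∣ D := by
    have h : ((D : ℤ) : ZMod 25) = 0 := by
      have e : ((D : ℤ) : ZMod 25) = ((x + 12 * y : ℤ) : ZMod 25) * ((x - 11 * y : ℤ) : ZMod 25) := by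
        rw [hD]
        push_cast
        have h25 : (25 : ZMod 25) = 0 := by decide
        linear_combination (7 * (y : ZMod 25) * y) * h25
      rw [e, hxy, zero_mul]
    exact (ZMod.intCast_zmod_eq_zero_iff_dvd D 25).mp h
  obtain ⟨D', hD'⟩ := h25D
  -- `D' ∣ 43ᴺ · 81` and `D' ∣ 43ᴺ · 25`, so `D' ∣ 43ᴺ`
  set N := 2 * (k + l) + 2 * (k + m) with hN
  have d1 : D' ∣ 43 ^ N * 81 := by
    refine ⟨E * 43 ^ 2 * 43 ^ (2 * (k + m)), ?_⟩
    have : 25 * (43 ^ N * 81) = 25 * (D' * (E * 43 ^ 2 * 43 ^ (2 * (k + m)))) := by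
      rw [hN, pow_add]
      rw [hD'] at n1
      linear_combination (-(43 : ℤ) ^ (2 * (k + m))) * n1
    exact mul_left_cancel₀ (by norm_num) this
  have d2 : D' ∣ 43 ^ N * 25 := by
    refine ⟨F * 43 ^ 2 * 43 ^ (2 * (k + l)), ?_⟩
    have : 25 * (43 ^ N * 25) = 25 * (D' * (F * 43 ^ 2 * 43 ^ (2 * (k + l)))) := by
      rw [hN, pow_add]
      rw [hD'] at n2
      linear_combination (-(43 : ℤ) ^ (2 * (k + l))) * n2
    exact mul_left_cancel₀ (by norm_num) this
  have d3 : D' ∣ 43 ^ N := by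
    have e : (43 : ℤ) ^ N = 13 * (43 ^ N * 25) - 4 * (43 ^ N * 81) := by ring
    rw [e]
    exact dvd_sub (Dvd.dvd.mul_left d2 _) (Dvd.dvd.mul_left d1 _)
  have hp : Prime (43 : ℤ) := by
    rw [← Nat.cast_ofNat, Nat.prime_iff_prime_int.symm]; norm_num
  obtain ⟨j, -, hj⟩ := (dvd_prime_pow hp N).mp d3
  have hD0 : 0 ≤ D := by
    rw [hD]; nlinarith [sq_nonneg (2 * x + y), sq_nonneg y]
  have hDj : D' = 43 ^ j := by
    rcases Int.associated_iff.mp hj with h | h
    · exact h
    · exfalso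
      have : (0 : ℤ) < 43 ^ j := by positivity
      rw [hD', h] at hD0
      linarith
  refine descent j x y ?_ hxy
  rw [← hD, hD', hDj]

end Pool.Agent.R799
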