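import Pool.Agent.R799.Blanch
import Pool.Agent.R799.MutMat
import Pool.Agent.R799.Norm

/-!
# Two mutant Seifert matrices with different values of `n`
-/

set_option autoImplicit false

namespace Pool.Agent.R799

open LaurentPolynomial Matrix MutMat

/-! ### General facts -/

lemma hts : (T 1 : Lam) * T (-1) = 1 := by
  rw [← T_add]; simp

/-- evaluation at `1` -/
noncomputable def ev1 : Lam →+* ℤ := eval₂ (RingHom.id ℤ) 1

lemma ev1_T (n : ℤ) : ev1 (T n) = 1 := by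
  unfold ev1; rw [eval₂_T]; simp

lemma ev1_ofNat (n : ℕ) [n.AtLeastTwo] : ev1 (ofNat(n) : Lam) = ofNat(n) :=
  map_ofNat ev1 n

lemma invert_ofNat (n : ℕ) [n.AtLeastTwo] :
    LaurentPolynomial.invert (ofNat(n) : Lam) = ofNat(n) := map_ofNat _ n

lemma atOne_apply {n : Type*} (A : Matrix n n Lam) (i j : n) : atOne A i j = ev1 (A i j) := rfl

/-- the polynomial `43 t² - 85 t + 43` -/
noncomputable def DD : Lam := 43 * (T 1) ^ 2 - 85 * T 1 + 43

lemma DD_ne : DD ≠ 0 := by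
  intro h
  have h1 : ev1 DD = 0 := by rw [h, map_zero]
  unfold DD at h1
  rw [map_add, map_sub, map_mul, map_mul, map_pow, ev1_T, map_ofNat, map_ofNat] at h1
  norm_num at h1

section Inv

variable {n : Type*} [Fintype n] [DecidableEq n]

lemma toOm_smul {m l : Type*} (a : Lam) (A : Matrix m l Lam) :
    toOm (a • A) = (algebraMap Lam Om a) • toOm A := by
  ext i j; simp [toOm]

lemma toOm_one : toOm (1 : Matrix n n Lam) = 1 := by
  ext i j
  by_cases h : i = j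
  · subst h; simp [toOm]
  · simp [toOm, h]

lemma toOm_add {m l : Type*} (A B : Matrix m l Lam) : toOm (A + B) = toOm A + toOm B := by
  ext i j; simp [toOm]

lemma toOm_neg {m l : Type*} (A : Matrix m l Lam) : toOm (-A) = -toOm A := by
  ext i j; simp [toOm]

lemma alg_ne {d : Lam} (hd : d ≠ 0) : algebraMap Lam Om d ≠ 0 := by
  intro h
  exact hd ((IsFractionRing.injective Lam Om) (by rw [h, map_zero]))

lemma inv_right {N B : Matrix n n Lam} {d : Lam} (hd : d ≠ 0) (h : N * B = d • 1) :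
    toOm N * ((algebraMap Lam Om d)⁻¹ • toOm B) = 1 := by
  rw [Matrix.mul_smul, ← toOm_mul, h, toOm_smul, toOm_one, smul_smul,
    inv_mul_cancel₀ (alg_ne hd), one_smul]

lemma inv_eq {N B : Matrix n n Lam} {d : Lam} (hd : d ≠ 0) (h : N * B = d • 1) :
    (toOm N)⁻¹ = (algebraMap Lam Om d)⁻¹ • toOm B :=
  Matrix.inv_eq_right_inv (inv_right hd h)

lemma inv_mul' {N B : Matrix n n Lam} {d : Lam} (hd : d ≠ 0) (h : N * B = d • 1) :
    (toOm N)⁻¹ * toOm N = 1 := by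
  rw [inv_eq hd h]
  exact mul_eq_one_comm.mp (inv_right hd h)

lemma mul_inv' {N B : Matrix n n Lam} {d : Lam} (hd : d ≠ 0) (h : N * B = d • 1) :
    toOm N * (toOm N)⁻¹ = 1 := by
  rw [inv_eq hd h]
  exact inv_right hd h

lemma det_ne {N B : Matrix n n Lam} {d : Lam} (hd : d ≠ 0) (h : N * B = d • 1) : N.det ≠ 0 := by
  intro h0
  have h1 := congrArg Matrix.det h
  rw [Matrix.det_mul, h0, zero_mul, Matrix.det_smul, Matrix.det_one, mul_one] at h1
  exact pow_ne_zero _ hd h1.symm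

lemma conjT_alexander (V : Matrix n n ℤ) :
    conjT (alexanderMatrix V) = (-T (-1) : Lam) • alexanderMatrix V := by
  apply Matrix.ext; intro i j
  simp only [conjT, alexanderMatrix, Matrix.transpose_apply, Matrix.map_apply, Matrix.sub_apply,
    Matrix.smul_apply, smul_eq_mul, map_sub, map_mul, invert_T, eq_intCast, map_intCast]
  have := hts
  linear_combination (((V i j : ℤ) : Lam)) * this

lemma alexander_R {V : Matrix n n ℤ} {B : Matrix n n Lam} {d : Lam} (hd : d ≠ 0)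
    (h : alexanderMatrix V * B = d • 1) :
    blanchfieldMatrix V * toOm (alexanderMatrix V) = toOm ((T 1 - 1 : Lam) • 1) := by
  unfold blanchfieldMatrix
  rw [Matrix.smul_mul, inv_mul' hd h, toOm_smul, toOm_one]

lemma alexander_S {V : Matrix n n ℤ} {B : Matrix n n Lam} {d : Lam} (hd : d ≠ 0)
    (h : alexanderMatrix V * B = d • 1) :
    toOm (conjT (alexanderMatrix V)) * blanchfieldMatrix V =
      toOm ((-T (-1) * (T 1 - 1) : Lam) • 1) := by
  unfold blanchfieldMatrix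
  rw [conjT_alexander, toOm_smul, Matrix.smul_mul, Matrix.mul_smul, mul_inv' hd h, toOm_smul,
    toOm_one, smul_smul, map_mul]

end Inv

lemma IsometricPairings.symm {m n : Type*} [Fintype m] [Fintype n] {N : Matrix m m Lam}
    {P : Matrix m m Om} {N' : Matrix n n Lam} {P' : Matrix n n Om}
    (h : IsometricPairings N P N' P') : IsometricPairings N' P' N P := by
  rw [iso_iff] at h ⊢
  obtain ⟨e, he⟩ := h
  refine ⟨e.symm, fun a b a' b' ha hb => ?_⟩
  rw [LinearEquiv.symm_apply_eq] at ha hb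
  obtain ⟨c, hc⟩ := he a' b' a b ha.symm hb.symm
  refine ⟨-c, ?_⟩
  rw [map_neg, ← hc]; ring

/-! ### The two matrices -/

/-- `V ⊕ Vᵀ` for `V = !![5, 1; 2, 9]` -/
def VR : Matrix (Fin 4) (Fin 4) ℤ := !![5, 1, 0, 0; 2, 9, 0, 0; 0, 0, 5, 2; 0, 0, 1, 9]

/-- `V ⊕ V` for `V = !![5, 1; 2, 9]` -/
def VK : Matrix (Fin 4) (Fin 4) ℤ := !![5, 1, 0, 0; 2, 9, 0, 0; 0, 0, 5, 1; 0, 0, 2, 9]

lemma alex_VR : alexanderMatrix VR = NR (T 1) := by
  apply Matrix.ext; intro i j
  simp only [alexanderMatrix, Matrix.transpose_apply, Matrix.map_apply, Matrix.sub_apply,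
    Matrix.smul_apply, smul_eq_mul, eq_intCast]
  fin_cases i <;> fin_cases j <;> simp [VR, NR] <;> ring

lemma alex_VK : alexanderMatrix VK = NK (T 1) := by
  apply Matrix.ext; intro i j
  simp only [alexanderMatrix, Matrix.transpose_apply, Matrix.map_apply, Matrix.sub_apply,
    Matrix.smul_apply, smul_eq_mul, eq_intCast]
  fin_cases i <;> fin_cases j <;> simp [VK, NK] <;> ring

lemma NR_BR' : alexanderMatrix VR * BR (T 1) = DD • 1 := by
  rw [alex_VR]
  exact NR_BR (T 1) (T (-1)) hts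

lemma NK_BK' : alexanderMatrix VK * BK (T 1) = DD • 1 := by
  rw [alex_VK]
  exact NK_BK (T 1) (T (-1)) hts

/-! ### The upper bound for `V ⊕ Vᵀ` -/

/-- the `2 × 2` matrix `(85 - 43 t - 43 t⁻¹) I` -/
noncomputable abbrev A2 : Matrix (Fin 2) (Fin 2) Lam := AR (T 1) (T (-1))

lemma A2_mul : A2 * (-(T 1 : Lam) • (1 : Matrix (Fin 2) (Fin 2) Lam)) = DD • 1 := by
  have h := hts
  apply Matrix.ext; intro i j
  rw [Matrix.mul_smul, mul_one]
  fin_cases i <;> fin_cases j <;> simp [AR, DD, -T_pow] <;> linear_combination (43 : Lam) * h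

lemma A2_conj : conjT A2 = A2 := by
  apply Matrix.ext; intro i j
  fin_cases i <;> fin_cases j <;> simp [conjT, AR, invert_ofNat] <;> ring

lemma A2_atOne : atOne A2 = -1 := by
  ext i j
  rw [atOne_apply]
  fin_cases i <;> fin_cases j <;> simp [AR, ev1_T, ev1_ofNat]

lemma GR_conj : conjT (GR : Matrix (Fin 4) (Fin 2) Lam) = (GR : Matrix (Fin 4) (Fin 2) Lam)ᵀ := by
  apply Matrix.ext; intro i j
  fin_cases i <;> fin_cases j <;> simp [conjT, GR, invert_ofNat]

lemma presents_VR : PresentsBlanchfield A2 VR := by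
  refine ⟨A2_conj, det_ne DD_ne A2_mul, ?_⟩
  have hd := alg_ne DD_ne
  refine isometric_of A2 (toOm A2)⁻¹ (alexanderMatrix VR) (blanchfieldMatrix VR) GR
    (XR (T 1) (T (-1))) (ZR (T 1) (T (-1))) (WR (T 1) (T (-1))) (YR1 (T 1) (T (-1)))
    (YR2 (T 1) (T (-1))) ?_ ?_ ?_ ?_ _ _ (alexander_R DD_ne NR_BR') (alexander_S DD_ne NR_BR') 1 ?_
  · rw [alex_VR]; exact GR_AR _ _ hts
  · rw [alex_VR]; exact XR_NR _ _ hts
  · exact XR_GR _ _ hts
  · rw [alex_VR]; exact GR_XR _ _ hts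
  · rw [GR_conj, inv_eq DD_ne A2_mul]
    unfold blanchfieldMatrix
    rw [inv_eq DD_ne NR_BR', smul_smul, mul_comm, ← smul_smul, ← toOm_smul, Matrix.mul_smul,
      Matrix.smul_mul, ← toOm_mul, ← toOm_mul, GBG (T 1) (T (-1)) hts]
    have e : (43 * (T 1 : Lam) ^ 2 - 85 * T 1 + 43) = DD := rfl
    rw [e, add_smul, toOm_add, smul_add, toOm_smul DD, smul_smul, inv_mul_cancel₀ hd, one_smul]

/-! ### The lower bound for `V ⊕ Vᵀ` -/

/-- The unit `2` modulo `3`. -/
def two3 : (ZMod 3)ˣ where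
  val := 2
  inv := 2
  val_inv := by decide
  inv_val := by decide

/-- Evaluation at `2` modulo `3`. -/
noncomputable def rho : Lam →+* ZMod 3 := eval₂ (Int.castRingHom (ZMod 3)) two3

lemma rho_ofNat (n : ℕ) [n.AtLeastTwo] : rho (ofNat(n) : Lam) = ofNat(n) :=
  map_ofNat rho n

lemma rho_T : rho (T 1) = 2 := by
  unfold rho; rw [eval₂_T]; simp [two3]

lemma lt_two_gen (k : ℕ) (hk : k < 2) :
    ∃ w : Fin k → Lam, ∀ x : Fin k → Lam, ∃ r : Lam, x = r • w := by
  interval_cases k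
  · exact ⟨0, fun x => ⟨0, Subsingleton.elim _ _⟩⟩
  · refine ⟨fun _ => 1, fun x => ⟨x 0, ?_⟩⟩
    funext i
    have : i = 0 := Subsingleton.elim _ _
    subst this
    simp

lemma lower_VR (k : ℕ) (A : Matrix (Fin k) (Fin k) Lam) (h : PresentsBlanchfield A VR) :
    2 ≤ k := by
  by_contra hk
  push Not at hk
  obtain ⟨-, -, h⟩ := h
  rw [iso_iff] at h
  obtain ⟨e, -⟩ := h
  obtain ⟨w, hw⟩ := lt_two_gen k hk
  obtain ⟨g, hg⟩ := Submodule.Quotient.mk_surjective _ (e (Submodule.Quotient.mk w))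
  have key : ∀ y : Fin 4 → Lam, ∃ (r : Lam) (z : Fin 4 → Lam), y = r • g + NR (T 1) *ᵥ z := by
    intro y
    obtain ⟨x, hx⟩ := Submodule.Quotient.mk_surjective _ (e.symm (Submodule.Quotient.mk y))
    obtain ⟨r, hr⟩ := hw x
    have h1 : (Submodule.Quotient.mk y : CokerQ (alexanderMatrix VR)) =
        Submodule.Quotient.mk (r • g) := by
      rw [Submodule.Quotient.mk_smul, hg, ← map_smul, ← Submodule.Quotient.mk_smul, ← hr, hx,
        LinearEquiv.apply_symm_apply]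
    rw [Submodule.Quotient.eq] at h1
    obtain ⟨z, hz⟩ := h1
    refine ⟨r, z, ?_⟩
    rw [Matrix.mulVecLin_apply, alex_VR] at hz
    rw [hz]; abel
  have f1 : ∀ z : Fin 4 → Lam, rho ((NR (T 1) *ᵥ z) 1) = 0 := by
    intro z
    simp only [Matrix.mulVec, dotProduct, Fin.sum_univ_four]
    simp [NR, rho_T, rho_ofNat]
    have h3 : (3 : ZMod 3) = 0 := by decide
    linear_combination (rho (z 0) + 3 * rho (z 1)) * h3
  have f2 : ∀ z : Fin 4 → Lam, rho ((NR (T 1) *ᵥ z) 3) = 0 := by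
    intro z
    simp only [Matrix.mulVec, dotProduct, Fin.sum_univ_four]
    simp [NR, rho_T, rho_ofNat]
    left
    decide
  obtain ⟨r, z, hr⟩ := key ![0, 1, 0, 0]
  obtain ⟨q, y, hq⟩ := key ![0, 0, 0, 1]
  have r1 := congrArg rho (congrFun hr 1)
  have r3 := congrArg rho (congrFun hr 3)
  have q3 := congrArg rho (congrFun hq 3)
  rw [Pi.add_apply, map_add, f1, Pi.smul_apply, smul_eq_mul, map_mul] at r1
  rw [Pi.add_apply, map_add, f2, Pi.smul_apply, smul_eq_mul, map_mul] at r3 q3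
  simp at r1 r3 q3
  rcases r3 with h0 | h0
  · rw [h0, zero_mul] at r1
    exact one_ne_zero r1
  · rw [h0, mul_zero] at q3
    exact one_ne_zero q3

theorem nInv_VR : nInv VR = 2 := by
  have hmem : 2 ∈ {k | ∃ A : Matrix (Fin k) (Fin k) Lam, PresentsBlanchfield A VR ∧
      CongruentToDiagonal (atOne A)} := by
    refine ⟨A2, presents_VR, 1, fun _ => -1, by simp, fun _ => Or.inr rfl, ?_⟩
    rw [A2_atOne]
    ext i j
    fin_cases i <;> fin_cases j <;> simp
  apply le_antisymm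
  · exact Nat.sInf_le hmem
  · refine le_csInf ⟨2, hmem⟩ ?_
    rintro k ⟨A, hA, -⟩
    exact lower_VR k A hA

/-! ### The matrix `V ⊕ V` -/

/-- a `4 × 4` matrix presenting the Blanchfield pairing of `V ⊕ V` -/
noncomputable abbrev A4 : Matrix (Fin 4) (Fin 4) Lam := AK (T 1) (T (-1))

lemma A4_mul : A4 * (-(T 1 : Lam) • CK (T 1) (T (-1))) = DD • 1 := by
  rw [Matrix.mul_smul, AK_CK (T 1) (T (-1)) hts, smul_smul]
  congr 1
  unfold DD
  linear_combination (43 : Lam) * hts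

lemma A4_conj : conjT A4 = A4 := by
  apply Matrix.ext; intro i j
  fin_cases i <;> fin_cases j <;> simp [conjT, AK, invert_ofNat] <;> ring

lemma GK_conj : conjT (GK (T (-1))) = (GK (T 1 : Lam))ᵀ := by
  apply Matrix.ext; intro i j
  fin_cases i <;> fin_cases j <;> simp [conjT, GK]

lemma presents_VK : PresentsBlanchfield A4 VK := by
  refine ⟨A4_conj, det_ne DD_ne A4_mul, ?_⟩
  have hd := alg_ne DD_ne
  apply IsometricPairings.symm
  refine isometric_of (alexanderMatrix VK) (blanchfieldMatrix VK) A4 (toOm A4)⁻¹ (GK (T (-1)))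
    (XK (T 1)) (ZK (T 1) (T (-1))) (WK (T 1) (T (-1))) (YK1 (T 1) (T (-1)))
    (YK2 (T 1) (T (-1))) ?_ ?_ ?_ ?_ 1 1 ?_ ?_ 0 ?_
  · rw [alex_VK]; exact GK_NK _ _ hts
  · rw [alex_VK]; exact XK_AK _ _ hts
  · rw [alex_VK]; exact XK_GK _ _ hts
  · exact GK_XK _ _ hts
  · rw [inv_mul' DD_ne A4_mul, toOm_one]
  · rw [A4_conj, mul_inv' DD_ne A4_mul, toOm_one]
  · rw [GK_conj, inv_eq DD_ne A4_mul]
    unfold blanchfieldMatrix
    rw [inv_eq DD_ne NK_BK', smul_smul, mul_comm (algebraMap Lam Om (T 1 - 1)), ← smul_smul,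
      ← toOm_smul, Matrix.mul_smul, Matrix.smul_mul, ← toOm_mul, ← toOm_mul, Matrix.mul_smul,
      Matrix.smul_mul, GCG (T 1) (T (-1)) hts, smul_smul]
    have e : -(T 1 : Lam) * -(T (-1) * (T 1 - 1)) = T 1 - 1 := by
      linear_combination (T 1 - 1 : Lam) * hts
    have z : toOm (0 : Matrix (Fin 4) (Fin 4) Lam) = 0 := by ext i j; simp [toOm]
    rw [e, z, add_zero]

lemma A4_atOne : atOne A4 = !![5, -1, 0, 0; -1, 0, 0, 0; 0, 0, 5, -1; 0, 0, -1, 0] := by
  ext i j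
  rw [atOne_apply]
  fin_cases i <;> fin_cases j <;> simp [AK, ev1_T, ev1_ofNat]

lemma A4_cong : CongruentToDiagonal (atOne A4) := by
  rw [A4_atOne]
  refine ⟨!![3, -1, 0, 0; 2, -1, 0, 0; 0, 0, 3, -1; 0, 0, 2, -1], ![1, -1, 1, -1], ?_, ?_, ?_⟩
  · have : (!![3, -1, 0, 0; 2, -1, 0, 0; 0, 0, 3, -1; 0, 0, 2, -1] :
        Matrix (Fin 4) (Fin 4) ℤ).det = 1 := by decide
    rw [this]; exact isUnit_one
  · intro i; fin_cases i <;> simp
  · decide

/-- `φ(x, y) = (2 t - 1) x - 5 (t - 1) y` -/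
noncomputable def phi (x y : Lam) : Lam := (2 * T 1 - 1) * x - 5 * (T 1 - 1) * y

lemma ev_DD : ev DD = 0 := by
  unfold DD
  rw [map_add, map_sub, map_mul, map_mul, map_pow, ev_T, map_ofNat, map_ofNat]
  have h := theta_sq
  linear_combination (1 / 43 : ℂ) * h

lemma ev_phi_NK1 (z : Fin 4 → Lam) :
    ev (phi ((NK (T 1) *ᵥ z) 0) ((NK (T 1) *ᵥ z) 1)) = 0 := by
  have h : phi ((NK (T 1) *ᵥ z) 0) ((NK (T 1) *ᵥ z) 1) = -(DD * z 1) := by
    simp only [Matrix.mulVec, dotProduct, Fin.sum_univ_four, phi]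
    simp [NK, DD, -T_pow]
    ring
  rw [h, map_neg, map_mul, ev_DD, zero_mul, neg_zero]

lemma ev_phi_NK2 (z : Fin 4 → Lam) :
    ev (phi ((NK (T 1) *ᵥ z) 2) ((NK (T 1) *ᵥ z) 3)) = 0 := by
  have h : phi ((NK (T 1) *ᵥ z) 2) ((NK (T 1) *ᵥ z) 3) = -(DD * z 3) := by
    simp only [Matrix.mulVec, dotProduct, Fin.sum_univ_four, phi]
    simp [NK, DD, -T_pow]
    ring
  rw [h, map_neg, map_mul, ev_DD, zero_mul, neg_zero]

lemma phi_add (x y u v : Lam) : phi (x + u) (y + v) = phi x y + phi u v := by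
  unfold phi; ring

lemma phi_smul (r x y : Lam) : phi (r * x) (r * y) = r * phi x y := by
  unfold phi; ring

lemma chi_phi (x y : Lam) : ∃ c : ZMod 25, chi (phi x y) = 5 * c := by
  refine ⟨chi x - 2 * chi y, ?_⟩
  unfold phi
  rw [map_sub, map_mul, map_mul, map_mul, map_sub, map_sub, map_mul, chi_T, map_one, map_ofNat,
    map_ofNat]
  ring

lemma lt_three_gen (k : ℕ) (hk : k < 3) :
    ∃ w w' : Fin k → Lam, ∀ x : Fin k → Lam, ∃ r r' : Lam, x = r • w + r' • w' := by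
  interval_cases k
  · exact ⟨0, 0, fun x => ⟨0, 0, Subsingleton.elim _ _⟩⟩
  · refine ⟨fun _ => 1, 0, fun x => ⟨x 0, 0, ?_⟩⟩
    funext i
    have : i = 0 := Subsingleton.elim _ _
    subst this
    simp
  · refine ⟨![1, 0], ![0, 1], fun x => ⟨x 0, x 1, ?_⟩⟩
    funext i
    fin_cases i <;> simp

lemma lower_VK (k : ℕ) (A : Matrix (Fin k) (Fin k) Lam) (h : PresentsBlanchfield A VK) :
    3 ≤ k := by
  by_contra hk
  push Not at hk
  obtain ⟨-, -, h⟩ := h
  rw [iso_iff] at h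
  obtain ⟨e, -⟩ := h
  obtain ⟨w, w', hw⟩ := lt_three_gen k hk
  obtain ⟨g, hg⟩ := Submodule.Quotient.mk_surjective _ (e (Submodule.Quotient.mk w))
  obtain ⟨g', hg'⟩ := Submodule.Quotient.mk_surjective _ (e (Submodule.Quotient.mk w'))
  have key : ∀ y : Fin 4 → Lam, ∃ (r r' : Lam) (z : Fin 4 → Lam),
      y = r • g + r' • g' + NK (T 1) *ᵥ z := by
    intro y
    obtain ⟨x, hx⟩ := Submodule.Quotient.mk_surjective _ (e.symm (Submodule.Quotient.mk y))
    obtain ⟨r, r', hr⟩ := hw x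
    have h1 : (Submodule.Quotient.mk y : CokerQ (alexanderMatrix VK)) =
        Submodule.Quotient.mk (r • g + r' • g') := by
      rw [Submodule.Quotient.mk_add, Submodule.Quotient.mk_smul, Submodule.Quotient.mk_smul, hg,
        hg', ← map_smul, ← map_smul, ← map_add, ← Submodule.Quotient.mk_smul,
        ← Submodule.Quotient.mk_smul, ← Submodule.Quotient.mk_add, ← hr, hx,
        LinearEquiv.apply_symm_apply]
    rw [Submodule.Quotient.eq] at h1
    obtain ⟨z, hz⟩ := h1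
    refine ⟨r, r', z, ?_⟩
    rw [Matrix.mulVecLin_apply, alex_VK] at hz
    rw [hz]; abel
  -- the two functionals at `τ`
  have val1 : ∀ (y : Fin 4 → Lam) (r r' : Lam) (z : Fin 4 → Lam),
      y = r • g + r' • g' + NK (T 1) *ᵥ z →
      ev (phi (y 0) (y 1)) = ev r * ev (phi (g 0) (g 1)) + ev r' * ev (phi (g' 0) (g' 1)) := by
    intro y r r' z hy
    rw [hy]
    simp only [Pi.add_apply, Pi.smul_apply, smul_eq_mul]
    rw [phi_add, phi_add, phi_smul, phi_smul, map_add, map_add, ev_phi_NK1, map_mul, map_mul,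
      add_zero]
  have val2 : ∀ (y : Fin 4 → Lam) (r r' : Lam) (z : Fin 4 → Lam),
      y = r • g + r' • g' + NK (T 1) *ᵥ z →
      ev (phi (y 2) (y 3)) = ev r * ev (phi (g 2) (g 3)) + ev r' * ev (phi (g' 2) (g' 3)) := by
    intro y r r' z hy
    rw [hy]
    simp only [Pi.add_apply, Pi.smul_apply, smul_eq_mul]
    rw [phi_add, phi_add, phi_smul, phi_smul, map_add, map_add, ev_phi_NK2, map_mul, map_mul,
      add_zero]
  obtain ⟨r0, r0', z0, h0⟩ := key ![1, 0, 0, 0]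
  obtain ⟨r1, r1', z1, h1⟩ := key ![0, 1, 0, 0]
  obtain ⟨r2, r2', z2, h2⟩ := key ![0, 0, 1, 0]
  obtain ⟨r3, r3', z3, h3⟩ := key ![0, 0, 0, 1]
  have a0 := val1 _ _ _ _ h0
  have b0 := val2 _ _ _ _ h0
  have a1 := val1 _ _ _ _ h1
  have b1 := val2 _ _ _ _ h1
  have a2 := val1 _ _ _ _ h2
  have b2 := val2 _ _ _ _ h2
  have a3 := val1 _ _ _ _ h3
  have b3 := val2 _ _ _ _ h3
  have p10 : phi 1 0 = 2 * T 1 - 1 := by unfold phi; ring
  have p01 : phi 0 1 = -(5 * (T 1 - 1)) := by unfold phi; ring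
  have p00 : phi 0 0 = 0 := by unfold phi; ring
  simp only [Matrix.cons_val] at a0 b0 a1 b1 a2 b2 a3 b3
  rw [p10] at a0 b2
  rw [p01, map_neg] at a1 b3
  rw [p00, map_zero] at b0 b1 a2 a3
  refine no_delta (phi (g 0) (g 1) * phi (g' 2) (g' 3) - phi (g' 0) (g' 1) * phi (g 2) (g 3))
    (r0 * r2' - r0' * r2) (r1 * r3' - r1' * r3) ?_ ?_ ?_
  · rw [map_sub, map_sub, map_mul, map_mul, map_mul, map_mul]
    linear_combination (-(ev r2 * ev (phi (g 2) (g 3)) + ev r2' * ev (phi (g' 2) (g' 3)))) * a0 +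
      (-(ev (2 * T 1 - 1))) * b2 + (ev r2 * ev (phi (g 0) (g 1)) +
      ev r2' * ev (phi (g' 0) (g' 1))) * b0
  · rw [map_sub, map_sub, map_mul, map_mul, map_mul, map_mul]
    linear_combination (-(ev r3 * ev (phi (g 2) (g 3)) + ev r3' * ev (phi (g' 2) (g' 3)))) * a1 +
      (ev (5 * (T 1 - 1))) * b3 + (ev r3 * ev (phi (g 0) (g 1)) +
      ev r3' * ev (phi (g' 0) (g' 1))) * b1
  · obtain ⟨c, hc⟩ := chi_phi (g 0) (g 1)
    obtain ⟨c', hc'⟩ := chi_phi (g' 0) (g' 1)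
    obtain ⟨d, hd⟩ := chi_phi (g 2) (g 3)
    obtain ⟨d', hd'⟩ := chi_phi (g' 2) (g' 3)
    rw [map_sub, map_mul, map_mul, hc, hc', hd, hd']
    have h25 : (25 : ZMod 25) = 0 := by decide
    linear_combination (c * d' - c' * d) * h25

theorem three_le_nInv_VK : 3 ≤ nInv VK := by
  refine le_csInf ⟨4, A4, presents_VK, A4_cong⟩ ?_
  rintro k ⟨A, hA, -⟩
  exact lower_VK k A hA

end Pool.Agent.R799
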