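import Mathlib

/-!
# Simply connected six-dimensional fibres whose cohomology ring does not split

Definitions and the example used for `MP_66d375_gt`.
-/

set_option autoImplicit false

namespace Pool.Agent.R799

open Matrix

/-- The trilinear form on `Rʳ` with integer coefficients `c`. -/
def tri {r : ℕ} {R : Type*} [CommRing R] (c : Fin r → Fin r → Fin r → ℤ) (x y z : Fin r → R) : R :=
  ∑ i, ∑ j, ∑ k, (c i j k : R) * (x i * y j * z k)

/-- The invariants of a closed simply connected smooth spin `6`-manifold `M` with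
`H²(M; ℤ) = ℤʳ`, `H³(M; ℤ) = 0` and torsion-free homology: the coefficients `cup` of the cup
product form `H² × H² × H² → H⁶ = ℤ` and the coefficients `p` of the first Pontryagin class
`H² → ℤ`. The two congruences are Wall's necessary and sufficient conditions for the existence of
`M`. -/
structure WallSystem (r : ℕ) where
  /-- the coefficients of the cup product form -/
  cup : Fin r → Fin r → Fin r → ℤ
  /-- the coefficients of the first Pontryagin class -/
  p : Fin r → ℤ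
  symm_left : ∀ i j k, cup i j k = cup j i k
  symm_right : ∀ i j k, cup i j k = cup i k j
  even : ∀ x y : Fin r → ℤ, 2 ∣ tri cup x y (x + y)
  pontryagin : ∀ x : Fin r → ℤ, 24 ∣ 4 * tri cup x x x - p ⬝ᵥ x

/-- `A` is an automorphism of `H² = ℤʳ` which preserves the invariants of `M`, and `A - 1` is
invertible. (Then `A` is realised by a diffeomorphism of `M` fixing a disc, and the open book with
page `M` minus this disc is a homotopy `7`-sphere, so that its binding is a fibred `5`-knot.) -/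
structure IsKnotMonodromy {r : ℕ} (W : WallSystem r) (A : Matrix (Fin r) (Fin r) ℤ) : Prop where
  unit : IsUnit A.det
  cup_eq : ∀ x y z : Fin r → ℤ, tri W.cup (A *ᵥ x) (A *ᵥ y) (A *ᵥ z) = tri W.cup x y z
  p_eq : ∀ x : Fin r → ℤ, W.p ⬝ᵥ (A *ᵥ x) = W.p ⬝ᵥ x
  sub_one : IsUnit (A - 1).det

/-- The rational cohomology ring `ℚ ⊕ H² ⊕ H⁴ ⊕ H⁶` (with `H² = ℚʳ` and `H⁴` its dual space) splits:
`H² = P₁ ⊕ P₂` with `P₁` and `P₂` invariant under `A`, and `H⁴ = Q₁ ⊕ Q₂`, where `P₁ · P₁ ⊆ Q₁`,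
`P₂ · P₂ ⊆ Q₂`, `P₁ · Q₁ = 0` and `P₂ · Q₂ = 0`. -/
def SplitsRationally {r : ℕ} (c : Fin r → Fin r → Fin r → ℤ) (A : Matrix (Fin r) (Fin r) ℤ) :
    Prop :=
  ∃ (P₁ P₂ : Submodule ℚ (Fin r → ℚ)) (Q₁ Q₂ : Submodule ℚ (Module.Dual ℚ (Fin r → ℚ))),
    IsCompl P₁ P₂ ∧ IsCompl Q₁ Q₂ ∧
    (∀ x ∈ P₁, A.map (Int.cast : ℤ → ℚ) *ᵥ x ∈ P₁) ∧
    (∀ x ∈ P₂, A.map (Int.cast : ℤ → ℚ) *ᵥ x ∈ P₂) ∧
    (∀ x ∈ P₁, ∀ y ∈ P₁, ∃ q ∈ Q₁, ∀ z, q z = tri c x y z) ∧
    (∀ x ∈ P₂, ∀ y ∈ P₂, ∃ q ∈ Q₂, ∀ z, q z = tri c x y z) ∧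
    (∀ x ∈ P₁, ∀ q ∈ Q₁, q x = 0) ∧ (∀ x ∈ P₂, ∀ q ∈ Q₂, q x = 0)

/-! ### The example -/

/-- The coefficients of the polarised norm form of `ℤ[θ]`, `θ³ = θ + 1`. -/
def cubic : Fin 3 → Fin 3 → Fin 3 → ℤ :=
  ![![![6, 0, 4], ![0, -2, -3], ![4, -3, 2]],
    ![![0, -2, -3], ![-2, 6, 0], ![-3, 0, -2]],
    ![![4, -3, 2], ![-3, 0, -2], ![2, -2, 6]]]

/-- Multiplication by `θ`. -/
def mulTheta : Matrix (Fin 3) (Fin 3) ℤ := !![0, 0, 1; 1, 0, 1; 0, 1, 0]

/-- The norm form. -/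
def nrm {R : Type*} [CommRing R] (a b c : R) : R :=
  a ^ 3 + b ^ 3 + c ^ 3 + 2 * a ^ 2 * c + a * c ^ 2 - a * b ^ 2 - b * c ^ 2 - 3 * a * b * c

lemma tri_self {R : Type*} [CommRing R] (x : Fin 3 → R) :
    tri cubic x x x = 6 * nrm (x 0) (x 1) (x 2) := by
  simp [tri, Fin.sum_univ_three, cubic, nrm]
  ring

/-- The system of invariants of the example: the polarised norm form, and `p₁ = 0`. -/
def exW : WallSystem 3 where
  cup := cubic
  p := 0
  symm_left := by decide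
  symm_right := by decide
  even := by
    intro x y
    refine ⟨3 * x 0 * y 0 * (x 0 + y 0) + 3 * x 1 * y 1 * (x 1 + y 1) +
      3 * x 2 * y 2 * (x 2 + y 2) +
      2 * (x 0 * x 0 * y 2 + 2 * x 0 * y 0 * x 2 + y 0 * y 0 * x 2 + 2 * x 0 * y 0 * y 2) +
      (x 2 * x 2 * y 0 + 2 * x 2 * y 2 * x 0 + y 2 * y 2 * x 0 + 2 * x 2 * y 2 * y 0) -
      (x 1 * x 1 * y 0 + 2 * x 1 * y 1 * x 0 + y 1 * y 1 * x 0 + 2 * x 1 * y 1 * y 0) -
      (x 2 * x 2 * y 1 + 2 * x 2 * y 2 * x 1 + y 2 * y 2 * x 1 + 2 * x 2 * y 2 * y 1) -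
      3 * (x 0 * x 1 * y 2 + x 0 * y 1 * x 2 + y 0 * x 1 * x 2 + x 0 * y 1 * y 2 +
        y 0 * x 1 * y 2 + y 0 * y 1 * x 2), ?_⟩
    simp [tri, Fin.sum_univ_three, cubic]
    ring
  pontryagin := by
    intro x
    rw [tri_self, zero_dotProduct, sub_zero]
    exact ⟨nrm (x 0) (x 1) (x 2), by ring⟩

lemma exMonodromy : IsKnotMonodromy exW mulTheta where
  unit := by
    have : mulTheta.det = 1 := by decide
    rw [this]; exact isUnit_one
  cup_eq := by
    intro x y z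
    simp [exW, tri, Fin.sum_univ_three, cubic, mulTheta, Matrix.mulVec, dotProduct]
    ring
  p_eq := by
    intro x
    simp [exW]
  sub_one := by
    have : (mulTheta - 1).det = 1 := by decide
    rw [this]; exact isUnit_one

/-- The norm form is anisotropic over `ℤ`. -/
lemma nrm_int (n : ℕ) : ∀ a b c : ℤ, a.natAbs + b.natAbs + c.natAbs ≤ n → nrm a b c = 0 →
    a = 0 ∧ b = 0 ∧ c = 0 := by
  induction n using Nat.strong_induction_on with
  | _ n ih =>
    intro a b c hn h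
    have h2 : ∀ u v w : ZMod 2, nrm u v w = 0 → u = 0 ∧ v = 0 ∧ w = 0 := by
      unfold nrm; decide
    have hc : nrm (a : ZMod 2) (b : ZMod 2) (c : ZMod 2) = 0 := by
      have := congrArg (Int.cast : ℤ → ZMod 2) h
      unfold nrm at this ⊢
      push_cast at this
      exact this
    obtain ⟨ha, hb, hc'⟩ := h2 _ _ _ hc
    rw [ZMod.intCast_zmod_eq_zero_iff_dvd] at ha hb hc'
    obtain ⟨a', rfl⟩ := ha
    obtain ⟨b', rfl⟩ := hb
    obtain ⟨c', rfl⟩ := hc'
    by_cases hz : a' = 0 ∧ b' = 0 ∧ c' = 0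
    · obtain ⟨rfl, rfl, rfl⟩ := hz
      simp
    · exfalso
      apply hz
      have hpos : 0 < a'.natAbs + b'.natAbs + c'.natAbs := by
        by_contra h0
        apply hz
        omega
      refine ih (a'.natAbs + b'.natAbs + c'.natAbs) ?_ a' b' c' le_rfl ?_
      · push_cast at hn
        omega
      · have : 8 * nrm a' b' c' = 0 := by
          unfold nrm at h ⊢
          push_cast at h
          linear_combination h
        omega

/-- The norm form is anisotropic over `ℚ`. -/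
lemma nrm_rat (a b c : ℚ) (h : nrm a b c = 0) : a = 0 ∧ b = 0 ∧ c = 0 := by
  have hd : (a.den * b.den * c.den : ℚ) ≠ 0 := by
    have := a.den_pos; have := b.den_pos; have := c.den_pos
    positivity
  have ea : (a.num * b.den * c.den : ℚ) = a * (a.den * b.den * c.den) := by
    have := Rat.mul_den_eq_num a
    linear_combination (-(b.den : ℚ) * c.den) * this
  have eb : (b.num * a.den * c.den : ℚ) = b * (a.den * b.den * c.den) := by
    have := Rat.mul_den_eq_num b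
    linear_combination (-(a.den : ℚ) * c.den) * this
  have ec : (c.num * a.den * b.den : ℚ) = c * (a.den * b.den * c.den) := by
    have := Rat.mul_den_eq_num c
    linear_combination (-(a.den : ℚ) * b.den) * this
  have key : nrm (a.num * b.den * c.den : ℤ) (b.num * a.den * c.den) (c.num * a.den * b.den) = 0 := by
    have : ((nrm (a.num * b.den * c.den : ℤ) (b.num * a.den * c.den) (c.num * a.den * b.den) : ℤ) :
        ℚ) = 0 := by
      unfold nrm
      push_cast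
      rw [ea, eb, ec]
      unfold nrm at h
      linear_combination (a.den * b.den * c.den : ℚ) ^ 3 * h
    exact_mod_cast this
  obtain ⟨h1, h2, h3⟩ := nrm_int _ _ _ _ le_rfl key
  have h1' : (a.num * b.den * c.den : ℚ) = 0 := by exact_mod_cast h1
  have h2' : (b.num * a.den * c.den : ℚ) = 0 := by exact_mod_cast h2
  have h3' : (c.num * a.den * b.den : ℚ) = 0 := by exact_mod_cast h3
  rw [ea] at h1'; rw [eb] at h2'; rw [ec] at h3'
  exact ⟨(mul_eq_zero.mp h1').resolve_right hd, (mul_eq_zero.mp h2').resolve_right hd,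
    (mul_eq_zero.mp h3').resolve_right hd⟩

lemma theta_mulVec (x : Fin 3 → ℚ) :
    mulTheta.map (Int.cast : ℤ → ℚ) *ᵥ x = ![x 2, x 0 + x 2, x 1] := by
  funext i
  fin_cases i <;> simp [mulTheta, Matrix.mulVec, dotProduct, Fin.sum_univ_three]

/-- An invariant subspace is zero or everything. -/
lemma invariant_trivial (P : Submodule ℚ (Fin 3 → ℚ))
    (hP : ∀ x ∈ P, mulTheta.map (Int.cast : ℤ → ℚ) *ᵥ x ∈ P) : P = ⊥ ∨ P = ⊤ := by
  by_cases h : P = ⊥
  · exact Or.inl h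
  right
  obtain ⟨v, hv, hv0⟩ := (Submodule.ne_bot_iff P).mp h
  have h1 := hP v hv
  have h2 := hP _ h1
  rw [theta_mulVec] at h1 h2
  rw [theta_mulVec] at h2
  simp only [Matrix.cons_val] at h2
  have hN : nrm (v 0) (v 1) (v 2) ≠ 0 := by
    intro h0
    obtain ⟨a, b, c⟩ := nrm_rat _ _ _ h0
    apply hv0
    funext i
    fin_cases i <;> simpa
  rw [Submodule.eq_top_iff']
  intro x
  -- Cramer's rule for the matrix with columns `v`, `θ v`, `θ² v`
  have hx : nrm (v 0) (v 1) (v 2) • x =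
      (((v 0 + v 2) * (v 0 + v 2) - (v 1 + v 2) * v 1) * x 0 +
        (v 1 * v 1 - v 2 * (v 0 + v 2)) * x 1 +
        (v 2 * (v 1 + v 2) - v 1 * (v 0 + v 2)) * x 2) • v +
      ((v 2 * (v 1 + v 2) - v 1 * (v 0 + v 2)) * x 0 +
        (v 0 * (v 0 + v 2) - v 1 * v 2) * x 1 +
        (v 1 * v 1 - v 0 * (v 1 + v 2)) * x 2) • ![v 2, v 0 + v 2, v 1] +
      ((v 1 * v 1 - v 2 * (v 0 + v 2)) * x 0 +
        (v 2 * v 2 - v 0 * v 1) * x 1 +
        (v 0 * (v 0 + v 2) - v 1 * v 2) * x 2) • ![v 1, v 2 + v 1, v 0 + v 2] := by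
    funext i
    simp only [Pi.add_apply, Pi.smul_apply, smul_eq_mul]
    fin_cases i <;> simp [nrm] <;> ring
  have hmem : nrm (v 0) (v 1) (v 2) • x ∈ P := by
    rw [hx]
    exact P.add_mem (P.add_mem (P.smul_mem _ hv) (P.smul_mem _ h1)) (P.smul_mem _ h2)
  have := P.smul_mem (nrm (v 0) (v 1) (v 2))⁻¹ hmem
  rwa [smul_smul, inv_mul_cancel₀ hN, one_smul] at this

lemma not_top (P : Submodule ℚ (Fin 3 → ℚ)) (Q : Submodule ℚ (Module.Dual ℚ (Fin 3 → ℚ)))
    (h : P = ⊤) (hc : ∀ x ∈ P, ∀ y ∈ P, ∃ q ∈ Q, ∀ z, q z = tri cubic x y z)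
    (ha : ∀ x ∈ P, ∀ q ∈ Q, q x = 0) : False := by
  subst h
  obtain ⟨q, hq, hqz⟩ := hc ![1, 0, 0] trivial ![1, 0, 0] trivial
  have h1 := ha ![1, 0, 0] trivial q hq
  rw [hqz, tri_self] at h1
  simp [nrm] at h1

theorem not_splits : ¬ SplitsRationally exW.cup mulTheta := by
  rintro ⟨P₁, P₂, Q₁, Q₂, hP, -, i1, i2, c1, c2, a1, a2⟩
  rcases invariant_trivial P₁ i1 with h | h
  · subst h
    have : P₂ = ⊤ := by
      have := hP.sup_eq_top
      rwa [bot_sup_eq] at this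
    exact not_top P₂ Q₂ this c2 a2
  · exact not_top P₁ Q₁ h c1 a1

end Pool.Agent.R799
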